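import Mathlib

/-!
# Definitions for `MP_f60983_an` (quasiconformally removable sets and CNED sets)
-/

open MeasureTheory Set Metric Filter
open scoped ENNReal NNReal Topology

namespace CNEDLink

/-- Euclidean `n`-space. -/
abbrev Rn (n : ℕ) := EuclideanSpace ℝ (Fin n)

/-! ### Objects used in the proof -/

/-- `ℝ³` -/
abbrev E3 := Rn 3

/-- the coordinate vectors of `ℝ³` -/
noncomputable abbrev e (i : Fin 3) : E3 := EuclideanSpace.single i (1 : ℝ)

/-- `(1/2,1/2,1/2)` -/
noncomputable def halfs : E3 := WithLp.toLp 2 (fun _ => (1 / 2 : ℝ))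

/-- the lattice vertex `t z` -/
noncomputable def latt (t : ℝ) (z : Fin 3 → ℤ) : E3 := WithLp.toLp 2 (fun i => t * (z i : ℝ))

/-- the square loop in the horizontal plane through `p`, with corner `p` and side `t` -/
def loopA (t : ℝ) (p : E3) : Set E3 :=
  {x | ∃ a b : ℝ, a ∈ Icc (0 : ℝ) 1 ∧ b ∈ Icc (0 : ℝ) 1 ∧ (a = 0 ∨ a = 1 ∨ b = 0 ∨ b = 1) ∧
    x = p + (t * a) • e 0 + (t * b) • e 1}

/-- the square loop in the plane `x₁ = q₁`, with corner `q` and side `t` -/
def loopB (t : ℝ) (q : E3) : Set E3 :=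
  {x | ∃ a b : ℝ, a ∈ Icc (0 : ℝ) 1 ∧ b ∈ Icc (0 : ℝ) 1 ∧ (a = 0 ∨ a = 1 ∨ b = 0 ∨ b = 1) ∧
    x = q + (t * a) • e 0 - (t * b) • e 2}

/-- `x i` is close to the grid of `c i` -/
def near1 (t : ℝ) (c x : E3) (i : Fin 3) : Prop := ∃ m : ℤ, |x i - c i - t * m| ≤ t / 8

/-- `x i` is close to the shifted grid of `c i` -/
def near2 (t : ℝ) (c x : E3) (i : Fin 3) : Prop := ∃ m : ℤ, |x i - c i - t * (m + 1 / 2)| ≤ t / 8

/-- the tubes of the first network close to `c` lie in `U` -/
def Type1 (U : Set E3) (t : ℝ) (c : E3) : Prop :=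
  ∀ x ∈ closedBall c (4 * t), ∀ i j : Fin 3, i ≠ j → near1 t c x i → near1 t c x j → x ∈ U

/-- the tubes of the second network close to `c` lie in `U` -/
def Type2 (U : Set E3) (t : ℝ) (c : E3) : Prop :=
  ∀ x ∈ closedBall c (4 * t), ∀ i j : Fin 3, i ≠ j → near2 t c x i → near2 t c x j → x ∈ U

/-- `g` is an upper gradient of `f` on almost all compact segments of `U` parallel to `e i` -/
def SegUG (f : E3 → E3) (g : E3 → ℝ≥0∞) (U : Set E3) (i : Fin 3) : Prop :=
  ∀ᵐ x : E3, ∀ a b : ℝ, a ≤ b → (∀ s ∈ Icc a b, x + s • e i ∈ U) →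
    edist (f (x + a • e i)) (f (x + b • e i)) ≤ ∫⁻ s in Icc a b, g (x + s • e i)

/-- the constant -/
noncomputable def C0 : ℝ≥0∞ := 16 * (volume (closedBall (0 : E3) (1 / 8)))⁻¹

/-- LINK: two linked squares have linked images under a homeomorphism, hence their distance is at
most the diameter of the image of the first one -/
def LinkHyp : Prop :=
  ∀ (f : E3 ≃ₜ E3) (t : ℝ) (c v v' : E3), 0 < t → (∀ i, |v i| ≤ t / 8) → (∀ i, |v' i| ≤ t / 8) →
    ∃ x ∈ loopA t (c + v), ∃ y ∈ loopB t (c + t • halfs + v'),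
      edist (f x) (f y) ≤ Metric.ediam (f '' loopA t (c + v))

/-- averages of `f` at the vertices of the first network -/
noncomputable def F1 (f : E3 → E3) (t : ℝ) (c : E3) : E3 :=
  ⨍ v in closedBall (0 : E3) (t / 8), f (c + v)

/-- averages of `f` at the vertices of the second network -/
noncomputable def F2 (f : E3 → E3) (t : ℝ) (c : E3) : E3 :=
  ⨍ v in closedBall (0 : E3) (t / 8), f (c + t • halfs + v)

/-! ### The set -/

/-- distance to the nearest integer -/
noncomputable def dz (x : ℝ) : ℝ := |x - round x|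

/-- median of three numbers -/
noncomputable def med (a b c : ℝ) : ℝ := max (min a b) (min (max a b) c)

/-- `1` on the tubes of the first network, `-1` on the tubes of the second network -/
noncomputable def psi (x : E3) : ℝ :=
  max (-1) (min 1 (2 - 8 * med (dz (x 0)) (dz (x 1)) (dz (x 2))))

/-- clipping to `[0,1]` -/
noncomputable def clip (x : ℝ) : ℝ := max 0 (min 1 x)

/-- the refinement map -/
noncomputable def stair (u p : ℝ) : ℝ :=
  2 * (⌊u⌋ : ℝ) + clip (8 * Int.fract u - 3 / 2 - p) + clip (8 * Int.fract u - 11 / 2 + p)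

/-- the height functions -/
noncomputable def ht : ℕ → E3 → ℝ
  | 0 => fun x => min 2 (max 1 ‖x - halfs‖)
  | (k + 1) => fun x => stair (ht k x) (psi ((4000 : ℝ) ^ (k + 1) • x))

/-- the set `E` -/
def setE : Set E3 := {x | ∀ k : ℕ, 1 / 16 ≤ dz (ht k x)}

/-- the scales -/
noncomputable def scale (k : ℕ) : ℝ := ((4000 : ℝ) ^ (k + 1))⁻¹

end CNEDLink
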