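import Pool.Agent.Helper20_CNED.Pattern

open MeasureTheory Set Metric Filter
open scoped ENNReal NNReal Topology

namespace CNEDLink

theorem vol_V {t : ℝ} (ht : 0 < t) : volume (closedBall (0 : E3) (t / 8)) =
    ENNReal.ofReal (t ^ 3) * volume (closedBall (0 : E3) (1 / 8)) := by
  have := Measure.addHaar_closedBall_mul (volume : Measure E3) (0 : E3) ht.le
    (by norm_num : (0 : ℝ) ≤ 1 / 8)
  rw [show t * (1 / 8) = t / 8 by ring] at this
  simpa using this

theorem vol_V_ne_zero {r : ℝ} (hr : 0 < r) : volume (closedBall (0 : E3) r) ≠ 0 :=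
  (measure_closedBall_pos volume _ hr).ne'

theorem vol_V_ne_top (r : ℝ) : volume (closedBall (0 : E3) r) ≠ ∞ :=
  measure_closedBall_lt_top.ne

theorem const_eq {t : ℝ} (ht : 0 < t) : (volume (closedBall (0 : E3) (t / 8)))⁻¹ *
    ENNReal.ofReal t = (volume (closedBall (0 : E3) (1 / 8)))⁻¹ * (ENNReal.ofReal (t ^ 2))⁻¹ := by
  rw [vol_V ht]
  have h1 : ENNReal.ofReal (t ^ 3) = ENNReal.ofReal t * ENNReal.ofReal (t ^ 2) := by
    rw [← ENNReal.ofReal_mul ht.le]; ring_nf
  rw [h1]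
  have a0 : ENNReal.ofReal t ≠ 0 := by simpa using ht
  have a1 : ENNReal.ofReal t ≠ ∞ := ENNReal.ofReal_ne_top
  have b1 : ENNReal.ofReal (t ^ 2) ≠ ∞ := ENNReal.ofReal_ne_top
  have b0 : ENNReal.ofReal (t ^ 2) ≠ 0 := by
    have : 0 < t ^ 2 := by positivity
    exact (ENNReal.ofReal_pos.2 this).ne'
  rw [ENNReal.mul_inv (Or.inl (mul_ne_zero a0 b0)) (Or.inl (ENNReal.mul_ne_top a1 b1)),
    ENNReal.mul_inv (Or.inl a0) (Or.inl a1)]
  calc (ENNReal.ofReal t)⁻¹ * (ENNReal.ofReal (t ^ 2))⁻¹ *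
        (volume (closedBall (0 : E3) (1 / 8)))⁻¹ * ENNReal.ofReal t
      = ((ENNReal.ofReal t)⁻¹ * ENNReal.ofReal t) *
        ((volume (closedBall (0 : E3) (1 / 8)))⁻¹ * (ENNReal.ofReal (t ^ 2))⁻¹) := by ring
    _ = _ := by rw [ENNReal.inv_mul_cancel a0 a1, one_mul]

theorem edist_avg (A B : E3 → E3) (hA : Continuous A) (hB : Continuous B) {r : ℝ} (hr : 0 < r) :
    edist (⨍ v in closedBall (0 : E3) r, A v) (⨍ v in closedBall (0 : E3) r, B v) ≤
      (volume (closedBall (0 : E3) r))⁻¹ * ∫⁻ v in closedBall (0 : E3) r, edist (A v) (B v) := by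
  have h0 := vol_V_ne_zero hr
  have hAi : Integrable A ((volume (closedBall (0 : E3) r))⁻¹ •
      volume.restrict (closedBall (0 : E3) r)) :=
    Integrable.smul_measure (hA.continuousOn.integrableOn_compact (isCompact_closedBall _ _))
      (ENNReal.inv_ne_top.2 h0)
  have hBi : Integrable B ((volume (closedBall (0 : E3) r))⁻¹ •
      volume.restrict (closedBall (0 : E3) r)) :=
    Integrable.smul_measure (hB.continuousOn.integrableOn_compact (isCompact_closedBall _ _))
      (ENNReal.inv_ne_top.2 h0)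
  rw [setAverage_eq', setAverage_eq', edist_eq_enorm_sub, ← integral_sub hAi hBi]
  refine (enorm_integral_le_lintegral_enorm _).trans ?_
  rw [lintegral_smul_measure, smul_eq_mul]
  simp_rw [edist_eq_enorm_sub]
  exact le_rfl

theorem avg_const (y : E3) {r : ℝ} (hr : 0 < r) : ⨍ _v in closedBall (0 : E3) r, y = y := by
  exact setAverage_const (vol_V_ne_zero hr) (vol_V_ne_top r) y

theorem lint_transl (g : E3 → ℝ≥0∞) (w : E3) (V A : Set E3) (hV : MeasurableSet V)
    (hA : MeasurableSet A) (h : ∀ v ∈ V, w + v ∈ A) :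
    ∫⁻ v in V, g (w + v) ≤ ∫⁻ x in A, g x := by
  rw [← lintegral_indicator hV, ← lintegral_indicator hA]
  calc ∫⁻ v, V.indicator (fun v => g (w + v)) v ≤ ∫⁻ v, (A.indicator g) (w + v) := by
        apply lintegral_mono
        intro v
        by_cases hv : v ∈ V
        · simp [indicator, hv, h v hv]
        · simp [indicator, hv]
    _ = _ := lintegral_add_left_eq_self _ w

/-- the integral over a segment -/
noncomputable def SS (g : E3 → ℝ≥0∞) (L : ℝ) (p0 : E3) (i : Fin 3) (v : E3) : ℝ≥0∞ :=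
  ∫⁻ r in Icc (0 : ℝ) L, g (p0 + v + r • e i)

theorem measurable_SS {g : E3 → ℝ≥0∞} (hg : Measurable g) (L : ℝ) (p0 : E3) (i : Fin 3) :
    Measurable (SS g L p0 i) := by
  unfold SS
  apply Measurable.lintegral_prod_right' (f := fun q : E3 × ℝ => g (p0 + q.1 + q.2 • e i))
  apply hg.comp
  fun_prop

theorem seg_ae {f : E3 → E3} {g : E3 → ℝ≥0∞} {U : Set E3} {i : Fin 3} (hS : SegUG f g U i)
    (p0 : E3) (L : ℝ) (V : Set E3) (hU : ∀ v ∈ V, ∀ s ∈ Icc 0 L, p0 + v + s • e i ∈ U) :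
    ∀ᵐ v : E3, v ∈ V → ∀ s ∈ Icc 0 L, ∀ s' ∈ Icc 0 L,
      edist (f (p0 + v + s • e i)) (f (p0 + v + s' • e i)) ≤ SS g L p0 i v := by
  have h := (measurePreserving_add_left (volume : Measure E3) p0).quasiMeasurePreserving.ae hS
  filter_upwards [h] with v hv hvV
  have key : ∀ s ∈ Icc 0 L, ∀ s' ∈ Icc 0 L, s ≤ s' →
      edist (f (p0 + v + s • e i)) (f (p0 + v + s' • e i)) ≤ SS g L p0 i v := by
    intro s hs s' hs' hss
    refine (hv s s' hss ?_).trans ?_
    · intro r hr
      exact hU v hvV r ⟨hs.1.trans hr.1, hr.2.trans hs'.2⟩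
    · exact lintegral_mono_set (fun r hr => ⟨hs.1.trans hr.1, hr.2.trans hs'.2⟩)
  intro s hs s' hs'
  rcases le_total s s' with hss | hss
  · exact key s hs s' hs' hss
  · rw [edist_comm]; exact key s' hs' s hs hss

theorem seg_lint {g : E3 → ℝ≥0∞} (hg : Measurable g) (p0 : E3) (i : Fin 3) (L : ℝ)
    (V A : Set E3) (hV : MeasurableSet V) (hA : MeasurableSet A)
    (h : ∀ v ∈ V, ∀ s ∈ Icc 0 L, p0 + v + s • e i ∈ A) :
    ∫⁻ v in V, SS g L p0 i v ≤ ENNReal.ofReal L * ∫⁻ x in A, g x := by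
  unfold SS
  rw [lintegral_lintegral_swap]
  · calc ∫⁻ r in Icc (0 : ℝ) L, ∫⁻ v in V, g (p0 + v + r • e i)
        ≤ ∫⁻ _r in Icc (0 : ℝ) L, ∫⁻ x in A, g x := by
          apply setLIntegral_mono' measurableSet_Icc
          intro r hr
          have := lint_transl g (p0 + r • e i) V A hV hA (fun v hv => by
            have := h v hv r hr
            rwa [show p0 + r • e i + v = p0 + v + r • e i by abel])
          refine le_trans (le_of_eq ?_) this
          apply lintegral_congr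
          intro v
          rw [show p0 + r • e i + v = p0 + v + r • e i by abel]
      _ = _ := by
          rw [setLIntegral_const, Real.volume_Icc, sub_zero, mul_comm]
  · apply Measurable.aemeasurable
    apply hg.comp
    fun_prop

/-! ### membership in tubes -/

theorem norm_e (i : Fin 3) : ‖e i‖ = 1 := by simp

theorem norm_halfs : ‖halfs‖ ≤ 7 / 8 := by
  rw [EuclideanSpace.norm_eq]
  apply Real.sqrt_le_iff.2
  constructor
  · norm_num
  · simp [halfs]; norm_num

theorem others (i : Fin 3) : ∃ j l : Fin 3, j ≠ l ∧ j ≠ i ∧ l ≠ i := by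
  fin_cases i
  · exact ⟨1, 2, by decide, by decide, by decide⟩
  · exact ⟨0, 2, by decide, by decide, by decide⟩
  · exact ⟨0, 1, by decide, by decide, by decide⟩

/-- integer vectors -/
def IsInt (w : E3) : Prop := ∀ j, ∃ m : ℤ, w j = m

theorem isInt_zero : IsInt 0 := fun j => ⟨0, by simp⟩

theorem isInt_e (i : Fin 3) : IsInt (e i) := by
  intro j
  by_cases h : j = i
  · subst h; exact ⟨1, by simp⟩
  · exact ⟨0, by simp [h]⟩

theorem IsInt.add {w w' : E3} (h : IsInt w) (h' : IsInt w') : IsInt (w + w') := by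
  intro j
  obtain ⟨m, hm⟩ := h j
  obtain ⟨m', hm'⟩ := h' j
  exact ⟨m + m', by rw [PiLp.add_apply, hm, hm']; push_cast; ring⟩

theorem IsInt.neg {w : E3} (h : IsInt w) : IsInt (-w) := by
  intro j
  obtain ⟨m, hm⟩ := h j
  exact ⟨-m, by rw [PiLp.neg_apply, hm]; push_cast; ring⟩

theorem ball_mem {t : ℝ} (ht : 0 < t) (c w v : E3) (hw : ‖w‖ ≤ 23 / 8)
    (hv : v ∈ closedBall (0 : E3) (t / 8)) (i : Fin 3) (s : ℝ) (hs : s ∈ Icc 0 t) :
    c + t • w + v + s • e i ∈ closedBall c (4 * t) := by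
  rw [mem_closedBall, dist_eq_norm]
  have h1 : c + t • w + v + s • e i - c = t • w + v + s • e i := by abel
  rw [h1]
  have h2 : ‖t • w‖ ≤ t * (23 / 8) := by
    rw [norm_smul, Real.norm_of_nonneg ht.le]; gcongr
  have h3 : ‖v‖ ≤ t / 8 := by simpa using hv
  have h4 : ‖s • e i‖ ≤ t := by
    rw [norm_smul, norm_e, mul_one, Real.norm_of_nonneg hs.1]; exact hs.2
  calc ‖t • w + v + s • e i‖ ≤ ‖t • w‖ + ‖v‖ + ‖s • e i‖ := norm_add₃_le
    _ ≤ 4 * t := by linarith

theorem type1_mem {U : Set E3} {t : ℝ} (ht : 0 < t) {c : E3} (hT : Type1 U t c) (w v : E3)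
    (hw : ‖w‖ ≤ 23 / 8) (hwi : IsInt w) (hv : v ∈ closedBall (0 : E3) (t / 8)) (i : Fin 3)
    (s : ℝ) (hs : s ∈ Icc 0 t) : c + t • w + v + s • e i ∈ U := by
  obtain ⟨j, l, hjl, hj, hl⟩ := others i
  have key : ∀ j, j ≠ i → near1 t c (c + t • w + v + s • e i) j := by
    intro j hj
    obtain ⟨m, hm⟩ := hwi j
    refine ⟨m, ?_⟩
    have : (c + t • w + v + s • e i) j - c j - t * m = v j := by
      rw [PiLp.add_apply, PiLp.add_apply, PiLp.add_apply, PiLp.smul_apply, PiLp.smul_apply, hm]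
      simp [hj]; ring
    rw [this]
    exact (abs_coord_le v j).trans (by simpa using hv)
  exact hT _ (ball_mem ht c w v hw hv i s hs) j l hjl (key j hj) (key l hl)

theorem type2_mem {U : Set E3} {t : ℝ} (ht : 0 < t) {c : E3} (hT : Type2 U t c) (w v : E3)
    (hw : ‖halfs + w‖ ≤ 23 / 8) (hwi : IsInt w) (hv : v ∈ closedBall (0 : E3) (t / 8))
    (i : Fin 3) (s : ℝ) (hs : s ∈ Icc 0 t) : c + t • (halfs + w) + v + s • e i ∈ U := by
  obtain ⟨j, l, hjl, hj, hl⟩ := others i
  have key : ∀ j, j ≠ i → near2 t c (c + t • (halfs + w) + v + s • e i) j := by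
    intro j hj
    obtain ⟨m, hm⟩ := hwi j
    refine ⟨m, ?_⟩
    have : (c + t • (halfs + w) + v + s • e i) j - c j - t * (m + 1 / 2) = v j := by
      rw [PiLp.add_apply, PiLp.add_apply, PiLp.add_apply, PiLp.smul_apply, PiLp.smul_apply,
        PiLp.add_apply, hm]
      simp [hj, halfs]; ring
    rw [this]
    exact (abs_coord_le v j).trans (by simpa using hv)
  exact hT _ (ball_mem ht c _ v hw hv i s hs) j l hjl (key j hj) (key l hl)

/-! ### the edges -/

theorem edge_gen {f : E3 → E3} (hf : Continuous f) {g : E3 → ℝ≥0∞} (hg : Measurable g)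
    {U : Set E3} {i : Fin 3} (hS : SegUG f g U i) {t : ℝ} (ht : 0 < t) (c p0 : E3)
    (hU : ∀ v ∈ closedBall (0 : E3) (t / 8), ∀ s ∈ Icc 0 t, p0 + v + s • e i ∈ U)
    (hB : ∀ v ∈ closedBall (0 : E3) (t / 8), ∀ s ∈ Icc 0 t,
      p0 + v + s • e i ∈ closedBall c (4 * t)) :
    edist (⨍ v in closedBall (0 : E3) (t / 8), f (p0 + t • e i + v))
      (⨍ v in closedBall (0 : E3) (t / 8), f (p0 + v)) ≤
      C0 * (ENNReal.ofReal (t ^ 2))⁻¹ * ∫⁻ x in closedBall c (4 * t), g x := by
  have h8 : 0 < t / 8 := by positivity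
  have h1 := edist_avg (fun v => f (p0 + t • e i + v)) (fun v => f (p0 + v))
    (hf.comp (by fun_prop)) (hf.comp (by fun_prop)) h8
  refine h1.trans ?_
  have h2 : ∫⁻ v in closedBall (0 : E3) (t / 8), edist (f (p0 + t • e i + v)) (f (p0 + v)) ≤
      ∫⁻ v in closedBall (0 : E3) (t / 8), SS g t p0 i v := by
    apply setLIntegral_mono_ae (measurable_SS hg t p0 i).aemeasurable
    filter_upwards [seg_ae hS p0 t _ hU] with v hv hvV
    have := hv hvV t ⟨ht.le, le_rfl⟩ 0 ⟨le_rfl, ht.le⟩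
    rwa [zero_smul, add_zero, show p0 + v + t • e i = p0 + t • e i + v by abel] at this
  have h3 := seg_lint hg p0 i t _ _ isClosed_closedBall.measurableSet
    (isClosed_closedBall (x := c) (ε := 4 * t)).measurableSet hB
  calc _ ≤ (volume (closedBall (0 : E3) (t / 8)))⁻¹ *
        (ENNReal.ofReal t * ∫⁻ x in closedBall c (4 * t), g x) := by
        gcongr
        exact h2.trans h3
    _ = (volume (closedBall (0 : E3) (1 / 8)))⁻¹ * (ENNReal.ofReal (t ^ 2))⁻¹ *
        ∫⁻ x in closedBall c (4 * t), g x := by rw [← mul_assoc, const_eq ht]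
    _ ≤ _ := by
        unfold C0
        gcongr
        have : (1 : ℝ≥0∞) ≤ 16 := by norm_num
        calc (volume (closedBall (0 : E3) (1 / 8)))⁻¹
            = 1 * (volume (closedBall (0 : E3) (1 / 8)))⁻¹ := (one_mul _).symm
          _ ≤ _ := by gcongr

theorem edge1 {f : E3 → E3} (hf : Continuous f) {g : E3 → ℝ≥0∞} (hg : Measurable g)
    {U : Set E3} {i : Fin 3} (hS : SegUG f g U i) {t : ℝ} (ht : 0 < t) (c : E3)
    (hT : Type1 U t c) :
    edist (F1 f t (c + t • e i)) (F1 f t c) ≤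
      C0 * (ENNReal.ofReal (t ^ 2))⁻¹ * ∫⁻ x in closedBall c (4 * t), g x := by
  unfold F1
  apply edge_gen hf hg hS ht c c
  · intro v hv s hs
    have := type1_mem ht hT 0 v (by rw [norm_zero]; norm_num) isInt_zero hv i s hs
    simpa using this
  · intro v hv s hs
    have := ball_mem ht c 0 v (by rw [norm_zero]; norm_num) hv i s hs
    simpa using this

theorem edge2 {f : E3 → E3} (hf : Continuous f) {g : E3 → ℝ≥0∞} (hg : Measurable g)
    {U : Set E3} {i : Fin 3} (hS : SegUG f g U i) {t : ℝ} (ht : 0 < t) (c : E3)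
    (hT : Type2 U t c) :
    edist (F2 f t (c + t • e i)) (F2 f t c) ≤
      C0 * (ENNReal.ofReal (t ^ 2))⁻¹ * ∫⁻ x in closedBall c (4 * t), g x := by
  unfold F2
  have h := edge_gen hf hg hS ht c (c + t • halfs) ?_ ?_
  · have e1 : ∀ v : E3, c + t • e i + t • halfs + v = c + t • halfs + t • e i + v := by
      intro v; abel
    simp_rw [e1]
    exact h
  · intro v hv s hs
    have := type2_mem ht hT 0 v (by simpa using norm_halfs.trans (by norm_num)) isInt_zero hv i s hs
    simpa using this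
  · intro v hv s hs
    have := ball_mem ht c halfs v (norm_halfs.trans (by norm_num)) hv i s hs
    simpa using this

/-! ### the change of type -/

/-- the sum over the four sides of the loop of the first network -/
noncomputable def RA (g : E3 → ℝ≥0∞) (t : ℝ) (c v : E3) : ℝ≥0∞ :=
  SS g t c 0 v + SS g t (c + t • e 0) 1 v + SS g t (c + t • e 1) 0 v + SS g t c 1 v

/-- the sum over the four sides of the loop of the second network -/
noncomputable def RB (g : E3 → ℝ≥0∞) (t : ℝ) (q v : E3) : ℝ≥0∞ :=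
  SS g t q 0 v + SS g t (q + t • (e 0 - e 2)) 2 v + SS g t (q + t • (-e 2)) 0 v +
    SS g t (q + t • (-e 2)) 2 v

theorem measurable_RA {g : E3 → ℝ≥0∞} (hg : Measurable g) (t : ℝ) (c : E3) :
    Measurable (RA g t c) := by
  unfold RA
  exact (((measurable_SS hg _ _ _).add (measurable_SS hg _ _ _)).add (measurable_SS hg _ _ _)).add
    (measurable_SS hg _ _ _)

theorem measurable_RB {g : E3 → ℝ≥0∞} (hg : Measurable g) (t : ℝ) (q : E3) :
    Measurable (RB g t q) := by
  unfold RB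
  exact (((measurable_SS hg _ _ _).add (measurable_SS hg _ _ _)).add (measurable_SS hg _ _ _)).add
    (measurable_SS hg _ _ _)

theorem four_lint {g : E3 → ℝ≥0∞} (hg : Measurable g) {t : ℝ} (c : E3)
    (p1 p2 p3 p4 : E3) (i1 i2 i3 i4 : Fin 3)
    (h1 : ∀ v ∈ closedBall (0 : E3) (t / 8), ∀ s ∈ Icc 0 t, p1 + v + s • e i1 ∈ closedBall c (4 * t))
    (h2 : ∀ v ∈ closedBall (0 : E3) (t / 8), ∀ s ∈ Icc 0 t, p2 + v + s • e i2 ∈ closedBall c (4 * t))
    (h3 : ∀ v ∈ closedBall (0 : E3) (t / 8), ∀ s ∈ Icc 0 t, p3 + v + s • e i3 ∈ closedBall c (4 * t))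
    (h4 : ∀ v ∈ closedBall (0 : E3) (t / 8), ∀ s ∈ Icc 0 t,
      p4 + v + s • e i4 ∈ closedBall c (4 * t)) :
    ∫⁻ v in closedBall (0 : E3) (t / 8),
      (SS g t p1 i1 v + SS g t p2 i2 v + SS g t p3 i3 v + SS g t p4 i4 v) ≤
      4 * (ENNReal.ofReal t * ∫⁻ x in closedBall c (4 * t), g x) := by
  have hV : MeasurableSet (closedBall (0 : E3) (t / 8)) := isClosed_closedBall.measurableSet
  have hA : MeasurableSet (closedBall c (4 * t)) := isClosed_closedBall.measurableSet
  have m1 := measurable_SS hg t p1 i1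
  have m2 := measurable_SS hg t p2 i2
  have m3 := measurable_SS hg t p3 i3
  rw [lintegral_add_left (f := fun v => SS g t p1 i1 v + SS g t p2 i2 v + SS g t p3 i3 v)
    ((m1.add m2).add m3),
    lintegral_add_left (f := fun v => SS g t p1 i1 v + SS g t p2 i2 v) (m1.add m2),
    lintegral_add_left (f := fun v => SS g t p1 i1 v) m1]
  have a1 := seg_lint hg p1 i1 t _ _ hV hA h1
  have a2 := seg_lint hg p2 i2 t _ _ hV hA h2
  have a3 := seg_lint hg p3 i3 t _ _ hV hA h3
  have a4 := seg_lint hg p4 i4 t _ _ hV hA h4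
  calc _ ≤ ENNReal.ofReal t * (∫⁻ x in closedBall c (4 * t), g x) +
        ENNReal.ofReal t * (∫⁻ x in closedBall c (4 * t), g x) +
        ENNReal.ofReal t * (∫⁻ x in closedBall c (4 * t), g x) +
        ENNReal.ofReal t * (∫⁻ x in closedBall c (4 * t), g x) := by gcongr
    _ = _ := by ring

theorem norm_sub_e (i j : Fin 3) : ‖e i - e j‖ ≤ 2 := by
  refine (norm_sub_le _ _).trans ?_
  rw [norm_e, norm_e]; norm_num

theorem loopA_le {f : E3 → E3} {g : E3 → ℝ≥0∞} {t : ℝ} (ht : 0 < t) (c v : E3)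
    (h1 : ∀ s ∈ Icc 0 t, ∀ s' ∈ Icc 0 t,
      edist (f (c + v + s • e 0)) (f (c + v + s' • e 0)) ≤ SS g t c 0 v)
    (h2 : ∀ s ∈ Icc 0 t, ∀ s' ∈ Icc 0 t,
      edist (f (c + t • e 0 + v + s • e 1)) (f (c + t • e 0 + v + s' • e 1)) ≤
        SS g t (c + t • e 0) 1 v)
    (h3 : ∀ s ∈ Icc 0 t, ∀ s' ∈ Icc 0 t,
      edist (f (c + t • e 1 + v + s • e 0)) (f (c + t • e 1 + v + s' • e 0)) ≤
        SS g t (c + t • e 1) 0 v)
    (h4 : ∀ s ∈ Icc 0 t, ∀ s' ∈ Icc 0 t,
      edist (f (c + v + s • e 1)) (f (c + v + s' • e 1)) ≤ SS g t c 1 v) :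
    ∀ x ∈ loopA t (c + v), edist (f x) (f (c + v)) ≤ RA g t c v := by
  rintro x ⟨a, b, ha, hb, hab, rfl⟩
  have m0 : (0 : ℝ) ∈ Icc 0 t := ⟨le_rfl, ht.le⟩
  have mt : t ∈ Icc 0 t := ⟨ht.le, le_rfl⟩
  have ma : t * a ∈ Icc 0 t := ⟨by have := ha.1; positivity, by nlinarith [ha.2]⟩
  have mb : t * b ∈ Icc 0 t := ⟨by have := hb.1; positivity, by nlinarith [hb.2]⟩
  unfold RA
  rcases hab with rfl | rfl | rfl | rfl
  · have := h4 _ mb _ m0
    simp only [mul_zero, zero_smul, add_zero] at this ⊢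
    exact this.trans le_add_self
  · have e1 := h2 _ mb _ m0
    have e2 := h1 _ mt _ m0
    rw [show c + t • e 0 + v + (t * b) • e 1 = c + v + (t * 1) • e 0 + (t * b) • e 1 by
      rw [mul_one]; abel] at e1
    simp only [zero_smul, add_zero] at e1 e2
    rw [show c + t • e 0 + v = c + v + t • e 0 by abel] at e1
    calc _ ≤ SS g t (c + t • e 0) 1 v + SS g t c 0 v := (edist_triangle _ _ _).trans
          (add_le_add e1 e2)
      _ = SS g t c 0 v + SS g t (c + t • e 0) 1 v := add_comm _ _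
      _ ≤ _ := by rw [add_assoc]; exact le_self_add
  · have := h1 _ ma _ m0
    simp only [mul_zero, zero_smul, add_zero] at this ⊢
    refine this.trans ?_
    rw [add_assoc, add_assoc]; exact le_self_add
  · have e1 := h3 _ ma _ m0
    have e2 := h4 _ mt _ m0
    rw [show c + t • e 1 + v + (t * a) • e 0 = c + v + (t * a) • e 0 + (t * 1) • e 1 by
      rw [mul_one]; abel] at e1
    simp only [zero_smul, add_zero] at e1 e2
    rw [show c + t • e 1 + v = c + v + t • e 1 by abel] at e1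
    calc _ ≤ SS g t (c + t • e 1) 0 v + SS g t c 1 v := (edist_triangle _ _ _).trans
          (add_le_add e1 e2)
      _ ≤ _ := by rw [add_assoc (_ + _)]; exact le_add_self

theorem loopB_le {f : E3 → E3} {g : E3 → ℝ≥0∞} {t : ℝ} (ht : 0 < t) (q v : E3)
    (h1 : ∀ s ∈ Icc 0 t, ∀ s' ∈ Icc 0 t,
      edist (f (q + v + s • e 0)) (f (q + v + s' • e 0)) ≤ SS g t q 0 v)
    (h2 : ∀ s ∈ Icc 0 t, ∀ s' ∈ Icc 0 t,
      edist (f (q + t • (e 0 - e 2) + v + s • e 2)) (f (q + t • (e 0 - e 2) + v + s' • e 2)) ≤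
        SS g t (q + t • (e 0 - e 2)) 2 v)
    (h3 : ∀ s ∈ Icc 0 t, ∀ s' ∈ Icc 0 t,
      edist (f (q + t • (-e 2) + v + s • e 0)) (f (q + t • (-e 2) + v + s' • e 0)) ≤
        SS g t (q + t • (-e 2)) 0 v)
    (h4 : ∀ s ∈ Icc 0 t, ∀ s' ∈ Icc 0 t,
      edist (f (q + t • (-e 2) + v + s • e 2)) (f (q + t • (-e 2) + v + s' • e 2)) ≤
        SS g t (q + t • (-e 2)) 2 v) :
    ∀ x ∈ loopB t (q + v), edist (f x) (f (q + v)) ≤ RB g t q v := by
  rintro x ⟨a, b, ha, hb, hab, rfl⟩
  have m0 : (0 : ℝ) ∈ Icc 0 t := ⟨le_rfl, ht.le⟩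
  have mt : t ∈ Icc 0 t := ⟨ht.le, le_rfl⟩
  have ma : t * a ∈ Icc 0 t := ⟨by have := ha.1; positivity, by nlinarith [ha.2]⟩
  have mb : t - t * b ∈ Icc 0 t := ⟨by nlinarith [hb.2], by nlinarith [hb.1]⟩
  have tb : ∀ w : E3, (t - t * b) • w = t • w - (t * b) • w := fun w => sub_smul _ _ _
  unfold RB
  rcases hab with rfl | rfl | rfl | rfl
  · have := h4 _ mb _ mt
    rw [tb] at this
    rw [show q + t • (-e 2) + v + (t • e 2 - (t * b) • e 2) = q + v + (t * 0) • e 0 - (t * b) • e 2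
      by rw [mul_zero, zero_smul, smul_neg]; abel,
      show q + t • (-e 2) + v + t • e 2 = q + v by rw [smul_neg]; abel] at this
    exact this.trans le_add_self
  · have e1 := h2 _ mb _ mt
    have e2 := h1 _ mt _ m0
    rw [tb] at e1
    rw [show q + t • (e 0 - e 2) + v + (t • e 2 - (t * b) • e 2) =
      q + v + (t * 1) • e 0 - (t * b) • e 2 by rw [mul_one, smul_sub]; abel,
      show q + t • (e 0 - e 2) + v + t • e 2 = q + v + t • e 0 by rw [smul_sub]; abel] at e1
    simp only [zero_smul, add_zero] at e2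
    calc _ ≤ SS g t (q + t • (e 0 - e 2)) 2 v + SS g t q 0 v := (edist_triangle _ _ _).trans
          (add_le_add e1 e2)
      _ = SS g t q 0 v + SS g t (q + t • (e 0 - e 2)) 2 v := add_comm _ _
      _ ≤ _ := by rw [add_assoc]; exact le_self_add
  · have := h1 _ ma _ m0
    simp only [mul_zero, zero_smul, add_zero, sub_zero] at this ⊢
    refine this.trans ?_
    rw [add_assoc, add_assoc]; exact le_self_add
  · have e1 := h3 _ ma _ m0
    have e2 := h4 _ m0 _ mt
    rw [show q + t • (-e 2) + v + (t * a) • e 0 = q + v + (t * a) • e 0 - (t * 1) • e 2 by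
      rw [mul_one, smul_neg]; abel] at e1
    simp only [zero_smul, add_zero] at e1 e2
    rw [show q + t • (-e 2) + v + t • e 2 = q + v by rw [smul_neg]; abel] at e2
    calc _ ≤ SS g t (q + t • (-e 2)) 0 v + SS g t (q + t • (-e 2)) 2 v :=
          (edist_triangle _ _ _).trans (add_le_add e1 e2)
      _ ≤ _ := by rw [add_assoc (_ + _)]; exact le_add_self

theorem edge12 (hlink : LinkHyp) (f : E3 ≃ₜ E3) {g : E3 → ℝ≥0∞} (hg : Measurable g)
    {U : Set E3} (hS : ∀ i, SegUG f g U i) {t : ℝ} (ht : 0 < t) (c : E3)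
    (hT1 : Type1 U t c) (hT2 : Type2 U t c) :
    edist (F1 f t c) (F2 f t c) ≤
      C0 * (ENNReal.ofReal (t ^ 2))⁻¹ * ∫⁻ x in closedBall c (4 * t), g x := by
  have h8 : 0 < t / 8 := by positivity
  have n0 : ‖(0 : E3)‖ ≤ 23 / 8 := by rw [norm_zero]; norm_num
  have n1 : ∀ i, ‖e i‖ ≤ 23 / 8 := fun i => by rw [norm_e]; norm_num
  have nh := norm_halfs
  have k0 : ‖halfs + 0‖ ≤ 23 / 8 := by rw [add_zero]; linarith
  have k1 : ‖halfs + (e 0 - e 2)‖ ≤ 23 / 8 := by
    refine (norm_add_le _ _).trans ?_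
    linarith [norm_sub_e 0 2]
  have k2 : ‖halfs + -e 2‖ ≤ 23 / 8 := by
    refine (norm_add_le _ _).trans ?_
    rw [norm_neg, norm_e]; linarith
  have i02 : IsInt (e 0 - e 2) := by
    rw [sub_eq_add_neg]; exact (isInt_e 0).add (isInt_e 2).neg
  -- the loops of the first network
  have A1 := seg_ae (hS 0) c t (closedBall 0 (t / 8)) (fun v hv s hs => by
    simpa using type1_mem ht hT1 0 v n0 isInt_zero hv 0 s hs)
  have A2 := seg_ae (hS 1) (c + t • e 0) t (closedBall 0 (t / 8)) (fun v hv s hs =>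
    type1_mem ht hT1 (e 0) v (n1 0) (isInt_e 0) hv 1 s hs)
  have A3 := seg_ae (hS 0) (c + t • e 1) t (closedBall 0 (t / 8)) (fun v hv s hs =>
    type1_mem ht hT1 (e 1) v (n1 1) (isInt_e 1) hv 0 s hs)
  have A4 := seg_ae (hS 1) c t (closedBall 0 (t / 8)) (fun v hv s hs => by
    simpa using type1_mem ht hT1 0 v n0 isInt_zero hv 1 s hs)
  -- the loops of the second network
  set q : E3 := c + t • halfs with hq
  have hqw : ∀ w : E3, q + t • w = c + t • (halfs + w) := by
    intro w; rw [hq, smul_add]; abel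
  have hq0 : q = c + t • (halfs + 0) := by rw [← hqw, smul_zero, add_zero]
  have B1 := seg_ae (hS 0) q t (closedBall 0 (t / 8)) (fun v hv s hs => by
    rw [hq0]; exact type2_mem ht hT2 0 v k0 isInt_zero hv 0 s hs)
  have B2 := seg_ae (hS 2) (q + t • (e 0 - e 2)) t (closedBall 0 (t / 8)) (fun v hv s hs => by
    rw [hqw]; exact type2_mem ht hT2 _ v k1 i02 hv 2 s hs)
  have B3 := seg_ae (hS 0) (q + t • (-e 2)) t (closedBall 0 (t / 8)) (fun v hv s hs => by
    rw [hqw]; exact type2_mem ht hT2 _ v k2 (isInt_e 2).neg hv 0 s hs)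
  have B4 := seg_ae (hS 2) (q + t • (-e 2)) t (closedBall 0 (t / 8)) (fun v hv s hs => by
    rw [hqw]; exact type2_mem ht hT2 _ v k2 (isInt_e 2).neg hv 2 s hs)
  have LA : ∀ᵐ v : E3, v ∈ closedBall (0 : E3) (t / 8) →
      ∀ x ∈ loopA t (c + v), edist (f x) (f (c + v)) ≤ RA g t c v := by
    filter_upwards [A1, A2, A3, A4] with v a1 a2 a3 a4 hv
    exact loopA_le ht c v (a1 hv) (a2 hv) (a3 hv) (a4 hv)
  have LB : ∀ᵐ v : E3, v ∈ closedBall (0 : E3) (t / 8) →
      ∀ x ∈ loopB t (q + v), edist (f x) (f (q + v)) ≤ RB g t q v := by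
    filter_upwards [B1, B2, B3, B4] with v b1 b2 b3 b4 hv
    exact loopB_le ht q v (b1 hv) (b2 hv) (b3 hv) (b4 hv)
  have IA : ∫⁻ v in closedBall (0 : E3) (t / 8), RA g t c v ≤
      4 * (ENNReal.ofReal t * ∫⁻ x in closedBall c (4 * t), g x) := by
    unfold RA
    apply four_lint hg
    · intro v hv s hs; simpa using ball_mem ht c 0 v n0 hv 0 s hs
    · intro v hv s hs; exact ball_mem ht c _ v (n1 0) hv 1 s hs
    · intro v hv s hs; exact ball_mem ht c _ v (n1 1) hv 0 s hs
    · intro v hv s hs; simpa using ball_mem ht c 0 v n0 hv 1 s hs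
  have IB : ∫⁻ v in closedBall (0 : E3) (t / 8), RB g t q v ≤
      4 * (ENNReal.ofReal t * ∫⁻ x in closedBall c (4 * t), g x) := by
    unfold RB
    apply four_lint hg
    · intro v hv s hs; rw [hq0]; exact ball_mem ht c _ v k0 hv 0 s hs
    · intro v hv s hs; rw [hqw]; exact ball_mem ht c _ v k1 hv 2 s hs
    · intro v hv s hs; rw [hqw]; exact ball_mem ht c _ v k2 hv 0 s hs
    · intro v hv s hs; rw [hqw]; exact ball_mem ht c _ v k2 hv 2 s hs
  -- pairs
  have coord : ∀ v : E3, v ∈ closedBall (0 : E3) (t / 8) → ∀ i, |v i| ≤ t / 8 := by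
    intro v hv i
    exact (abs_coord_le v i).trans (by simpa using hv)
  have P : ∀ᵐ v : E3, v ∈ closedBall (0 : E3) (t / 8) → ∀ᵐ v' : E3,
      v' ∈ closedBall (0 : E3) (t / 8) →
      edist (f (c + v)) (f (q + v')) ≤ 3 * RA g t c v + RB g t q v' := by
    filter_upwards [LA] with v hva hv
    filter_upwards [LB] with v' hvb hv'
    obtain ⟨x, hx, y, hy, hxy⟩ := hlink f t c v v' ht (coord v hv) (coord v' hv')
    have d1 : Metric.ediam (f '' loopA t (c + v)) ≤ 2 * RA g t c v := by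
      apply Metric.ediam_le
      rintro _ ⟨z, hz, rfl⟩ _ ⟨z', hz', rfl⟩
      calc edist (f z) (f z') ≤ edist (f z) (f (c + v)) + edist (f (c + v)) (f z') :=
            edist_triangle _ _ _
        _ ≤ RA g t c v + RA g t c v := by
            gcongr
            · exact hva hv z hz
            · rw [edist_comm]; exact hva hv z' hz'
        _ = 2 * RA g t c v := by ring
    calc edist (f (c + v)) (f (q + v'))
        ≤ edist (f (c + v)) (f x) + edist (f x) (f y) + edist (f y) (f (q + v')) :=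
          edist_triangle4 _ _ _ _
      _ ≤ RA g t c v + 2 * RA g t c v + RB g t q v' := by
          gcongr
          · rw [edist_comm]; exact hva hv x hx
          · exact hxy.trans d1
          · exact hvb hv' y hy
      _ = _ := by ring
  set m : ℝ≥0∞ := volume (closedBall (0 : E3) (t / 8)) with hm
  have m0 : m ≠ 0 := vol_V_ne_zero h8
  have m1 : m ≠ ∞ := vol_V_ne_top _
  set J : ℝ≥0∞ := ENNReal.ofReal t * ∫⁻ x in closedBall c (4 * t), g x with hJ
  have hF1c : F1 f t c = ⨍ v in closedBall (0 : E3) (t / 8), f (c + v) := rfl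
  have hF2c : F2 f t c = ⨍ v in closedBall (0 : E3) (t / 8), f (q + v) := rfl
  have Q1 : ∀ᵐ v : E3, v ∈ closedBall (0 : E3) (t / 8) →
      edist (f (c + v)) (F2 f t c) ≤ 3 * RA g t c v + m⁻¹ * (4 * J) := by
    filter_upwards [P] with v hP hv
    have h1 := edist_avg (fun _ => f (c + v)) (fun v' => f (q + v')) continuous_const
      (f.continuous.comp (by fun_prop)) h8
    rw [avg_const _ h8, ← hF2c] at h1
    refine h1.trans ?_
    calc m⁻¹ * ∫⁻ v' in closedBall (0 : E3) (t / 8), edist (f (c + v)) (f (q + v'))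
        ≤ m⁻¹ * ∫⁻ v' in closedBall (0 : E3) (t / 8), (3 * RA g t c v + RB g t q v') := by
          gcongr 1
          apply setLIntegral_mono_ae (measurable_const.add (measurable_RB hg t q)).aemeasurable
          exact hP hv
      _ = m⁻¹ * (3 * RA g t c v * m + ∫⁻ v' in closedBall (0 : E3) (t / 8), RB g t q v') := by
          rw [lintegral_add_left measurable_const, setLIntegral_const]
      _ ≤ m⁻¹ * (3 * RA g t c v * m + 4 * J) := by gcongr
      _ = 3 * RA g t c v + m⁻¹ * (4 * J) := by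
          rw [mul_add, mul_comm (3 * RA g t c v) m, ← mul_assoc, ENNReal.inv_mul_cancel m0 m1,
            one_mul]
  have h2 := edist_avg (fun v => f (c + v)) (fun _ => F2 f t c)
    (f.continuous.comp (by fun_prop)) continuous_const h8
  rw [avg_const _ h8, ← hF1c] at h2
  refine h2.trans ?_
  calc m⁻¹ * ∫⁻ v in closedBall (0 : E3) (t / 8), edist (f (c + v)) (F2 f t c)
      ≤ m⁻¹ * ∫⁻ v in closedBall (0 : E3) (t / 8), (3 * RA g t c v + m⁻¹ * (4 * J)) := by
        gcongr 1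
        apply setLIntegral_mono_ae
          (((measurable_RA hg t c).const_mul 3).add measurable_const).aemeasurable
        exact Q1
    _ = m⁻¹ * (3 * (∫⁻ v in closedBall (0 : E3) (t / 8), RA g t c v) + m⁻¹ * (4 * J) * m) := by
        rw [lintegral_add_left ((measurable_RA hg t c).const_mul 3), setLIntegral_const,
          lintegral_const_mul 3 (measurable_RA hg t c)]
    _ ≤ m⁻¹ * (3 * (4 * J) + m⁻¹ * (4 * J) * m) := by gcongr
    _ = m⁻¹ * (3 * (4 * J) + 4 * J) := by
        congr 2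
        calc m⁻¹ * (4 * J) * m = (m⁻¹ * m) * (4 * J) := by ring
          _ = 4 * J := by rw [ENNReal.inv_mul_cancel m0 m1, one_mul]
    _ = 16 * (m⁻¹ * ENNReal.ofReal t) * ∫⁻ x in closedBall c (4 * t), g x := by
        rw [hJ]; ring
    _ = _ := by
        rw [hm, const_eq ht]
        unfold C0
        ring

end CNEDLink
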