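import Pool.Agent.Helper20_CNED.Pattern

open MeasureTheory Set Metric Filter
open scoped ENNReal NNReal Topology

namespace CNEDLink

theorem stair_step (k : ℕ) (x : E3) : |ht (k + 1) x - 2 * ht k x| ≤ 2 := by
  rw [ht_succ]; exact stair_sub _ _

theorem ht_int (k : ℕ) (x : E3) (m : ℤ) (h : ht k x = m) (n : ℕ) :
    ht (k + n) x = 2 ^ n * m := by
  induction n with
  | zero => simpa using h
  | succ n ih =>
    rw [← add_assoc, ht_succ, ih]
    have h1 := psi_mem ((4000 : ℝ) ^ (k + n + 1) • x)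
    have h2 : ((2 : ℝ) ^ n * m) = ((2 ^ n * m : ℤ) : ℝ) := by push_cast; ring
    rw [h2, stair_int _ h1.1 h1.2]
    push_cast; ring

/-- the approximations of the limit function -/
noncomputable def LL (n : ℕ) (x : E3) : ℝ := ht n x / 2 ^ n

theorem LL_step (x : E3) (n : ℕ) : dist (LL n x) (LL (n + 1) x) ≤ 2 / 2 / 2 ^ n := by
  unfold LL
  rw [Real.dist_eq]
  have h := stair_step n x
  have e1 : ht n x / 2 ^ n - ht (n + 1) x / 2 ^ (n + 1) =
      -((ht (n + 1) x - 2 * ht n x) / 2 ^ (n + 1)) := by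
    field_simp
    ring
  rw [e1, abs_neg, abs_div, abs_of_pos (by positivity : (0 : ℝ) < 2 ^ (n + 1))]
  rw [div_le_div_iff₀ (by positivity) (by positivity), pow_succ]
  have h2 : (0 : ℝ) < 2 ^ n := by positivity
  nlinarith

/-- the limit function -/
noncomputable def Lim (x : E3) : ℝ := limUnder atTop (fun n => LL n x)

theorem tendsto_LL (x : E3) : Tendsto (fun n => LL n x) atTop (𝓝 (Lim x)) :=
  (cauchySeq_of_le_geometric_two (LL_step x)).tendsto_limUnder

theorem dist_LL_Lim (x : E3) (n : ℕ) : dist (LL n x) (Lim x) ≤ 2 / 2 ^ n :=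
  dist_le_of_le_geometric_two_of_tendsto (LL_step x) (tendsto_LL x) n

theorem continuous_Lim : Continuous Lim := by
  have hU : TendstoUniformly LL Lim atTop := by
    rw [Metric.tendstoUniformly_iff]
    intro ε hε
    have h0 : Tendsto (fun n : ℕ => (2 : ℝ) * (1 / 2) ^ n) atTop (𝓝 (2 * 0)) :=
      (tendsto_pow_atTop_nhds_zero_of_lt_one (by norm_num) (by norm_num)).const_mul 2
    rw [mul_zero] at h0
    filter_upwards [h0.eventually (gt_mem_nhds hε)] with n hn x
    rw [dist_comm]
    refine (dist_LL_Lim x n).trans_lt ?_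
    rw [one_div, inv_pow, ← div_eq_mul_inv] at hn
    exact hn
  apply hU.continuous
  apply Frequently.of_forall
  intro n
  unfold LL
  exact (continuous_ht n).div_const _

theorem Lim_of_int (k : ℕ) (x : E3) (m : ℤ) (h : ht k x = m) : Lim x = m / 2 ^ k := by
  have h1 : Tendsto (fun n => LL (k + n) x) atTop (𝓝 (Lim x)) := by
    have := (tendsto_LL x).comp (tendsto_add_atTop_nat k)
    refine this.congr fun n => ?_
    simp [add_comm]
  have h2 : (fun n => LL (k + n) x) = fun _ => (m : ℝ) / 2 ^ k := by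
    funext n
    unfold LL
    rw [ht_int k x m h n, pow_add]
    field_simp
  rw [h2] at h1
  exact (tendsto_nhds_unique h1 tendsto_const_nhds)

theorem Lim_off (x : E3) (hx : x ∉ setE) : ∃ (k : ℤ) (m : ℕ), Lim x = k / 2 ^ m := by
  have hx' : ∃ k : ℕ, dz (ht k x) < 1 / 16 := by
    by_contra hcon
    push Not at hcon
    exact hx hcon
  obtain ⟨k, hk⟩ := hx'
  have h1 := psi_mem ((4000 : ℝ) ^ (k + 1) • x)
  obtain ⟨m, hm⟩ := stair_gap h1.1 h1.2 hk
  exact ⟨m, k + 1, Lim_of_int (k + 1) x m (by rw [ht_succ, hm])⟩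

theorem Lim_inner (x : E3) (hx : ‖x - halfs‖ ≤ 1) : Lim x = 1 := by
  have h : ht 0 x = ((1 : ℤ) : ℝ) := by
    rw [ht_zero, max_eq_left hx]; norm_num
  rw [Lim_of_int 0 x 1 h]; norm_num

theorem Lim_outer (x : E3) (hx : 2 ≤ ‖x - halfs‖) : Lim x = 2 := by
  have h : ht 0 x = ((2 : ℤ) : ℝ) := by
    rw [ht_zero, max_eq_right (by linarith), min_eq_left hx]; norm_num
  rw [Lim_of_int 0 x 2 h]; norm_num

theorem isCompact_setE : IsCompact setE := by
  apply Metric.isCompact_of_isClosed_isBounded isClosed_setE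
  apply (Metric.isBounded_closedBall (x := halfs) (r := 2)).subset
  intro x hx
  rw [mem_closedBall, dist_eq_norm]
  by_contra hcon
  push Not at hcon
  have h : ht 0 x = ((2 : ℤ) : ℝ) := by
    rw [ht_zero, max_eq_right (by linarith), min_eq_left hcon.le]; norm_num
  exact notMem_setE_of_int 0 x 2 h hx

end CNEDLink
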