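import Pool.Agent.Helper20_CNED.Edge

open MeasureTheory Set Metric Filter
open scoped ENNReal NNReal Topology

namespace CNEDLink

/-- the integral of `g` over a segment of the line through `x` -/
noncomputable def HH (g : E3 → ℝ≥0∞) (i : Fin 3) (p q : ℝ) (x : E3) : ℝ≥0∞ :=
  ∫⁻ s in Icc p q, g (x + s • e i)

theorem measurable_HH {g : E3 → ℝ≥0∞} (hg : Measurable g) (i : Fin 3) (p q : ℝ) :
    Measurable (HH g i p q) := by
  unfold HH
  apply Measurable.lintegral_prod_right' (f := fun y : E3 × ℝ => g (y.1 + y.2 • e i))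
  apply hg.comp
  fun_prop

theorem HH_fin {g : E3 → ℝ≥0∞} (hg : Measurable g)
    (hfin : ∀ R : ℝ, ∫⁻ x in closedBall (0 : E3) R, g x < ∞) (i : Fin 3) (p q : ℝ) (R : ℝ) :
    ∫⁻ x in closedBall (0 : E3) R, HH g i p q x < ∞ := by
  unfold HH
  rw [lintegral_lintegral_swap]
  · have h1 : ∀ s ∈ Icc p q, ∫⁻ x in closedBall (0 : E3) R, g (x + s • e i) ≤
        ∫⁻ x in closedBall (0 : E3) (R + (|p| + |q|)), g x := by
      intro s hs
      have := lint_transl g (s • e i) (closedBall (0 : E3) R)
        (closedBall (0 : E3) (R + (|p| + |q|))) isClosed_closedBall.measurableSet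
        isClosed_closedBall.measurableSet (fun v hv => by
          rw [mem_closedBall, dist_zero_right] at hv ⊢
          refine (norm_add_le _ _).trans ?_
          rw [norm_smul, norm_e, mul_one, Real.norm_eq_abs]
          have : |s| ≤ |p| + |q| := by
            rcases abs_cases s with h | h <;> rcases abs_cases p with h' | h' <;>
              rcases abs_cases q with h'' | h'' <;> linarith [hs.1, hs.2]
          linarith)
      refine le_trans (le_of_eq ?_) this
      apply lintegral_congr; intro v; rw [add_comm]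
    calc ∫⁻ s in Icc p q, ∫⁻ x in closedBall (0 : E3) R, g (x + s • e i)
        ≤ ∫⁻ _s in Icc p q, ∫⁻ x in closedBall (0 : E3) (R + (|p| + |q|)), g x :=
          setLIntegral_mono' measurableSet_Icc h1
      _ = (∫⁻ x in closedBall (0 : E3) (R + (|p| + |q|)), g x) * volume (Icc p q) :=
          setLIntegral_const _ _
      _ < ∞ := ENNReal.mul_lt_top (hfin _) (by rw [Real.volume_Icc]; exact ENNReal.ofReal_lt_top)
  · apply Measurable.aemeasurable
    apply hg.comp
    fun_prop

/-- Lebesgue points of all `HH g i p q`, `p q` rational -/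
theorem HH_leb {g : E3 → ℝ≥0∞} (hg : Measurable g)
    (hfin : ∀ R : ℝ, ∫⁻ x in closedBall (0 : E3) R, g x < ∞) (i : Fin 3) :
    ∀ᵐ x : E3, ∀ p q : ℚ, Tendsto (fun r => (∫⁻ y in closedBall x r, HH g i p q y) /
      volume (closedBall x r)) (𝓝[>] 0) (𝓝 (HH g i p q x)) := by
  have h1 : ∀ (n : ℕ) (p q : ℚ), ∀ᵐ x : E3, Tendsto (fun r => (∫⁻ y in closedBall x r,
      (closedBall (0 : E3) n).indicator (HH g i p q) y) / volume (closedBall x r)) (𝓝[>] 0)
      (𝓝 ((closedBall (0 : E3) n).indicator (HH g i p q) x)) := by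
    intro n p q
    have hm : Measurable ((closedBall (0 : E3) n).indicator (HH g i p q)) :=
      (measurable_HH hg i p q).indicator isClosed_closedBall.measurableSet
    have hf : ∫⁻ y, (closedBall (0 : E3) n).indicator (HH g i p q) y ≠ ∞ := by
      rw [lintegral_indicator isClosed_closedBall.measurableSet]
      exact (HH_fin hg hfin i p q n).ne
    filter_upwards [(Besicovitch.vitaliFamily (volume : Measure E3)).ae_tendsto_lintegral_div'
      hm hf] with x hx
    exact hx.comp (Besicovitch.tendsto_filterAt volume x)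
  have h2 : ∀ᵐ x : E3, ∀ (n : ℕ) (p q : ℚ), Tendsto (fun r => (∫⁻ y in closedBall x r,
      (closedBall (0 : E3) n).indicator (HH g i p q) y) / volume (closedBall x r)) (𝓝[>] 0)
      (𝓝 ((closedBall (0 : E3) n).indicator (HH g i p q) x)) := by
    rw [ae_all_iff]; intro n; rw [ae_all_iff]; intro p; rw [ae_all_iff]; intro q
    exact h1 n p q
  filter_upwards [h2] with x hx p q
  obtain ⟨n, hn⟩ := exists_nat_gt (‖x‖ + 1)
  have h3 := hx n p q
  have hxn : x ∈ closedBall (0 : E3) n := by
    rw [mem_closedBall, dist_zero_right]; linarith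
  rw [indicator_of_mem hxn] at h3
  apply h3.congr'
  filter_upwards [Ioc_mem_nhdsGT (zero_lt_one' ℝ)] with r hr
  congr 1
  apply setLIntegral_congr_fun isClosed_closedBall.measurableSet
  intro y hy
  have : y ∈ closedBall (0 : E3) n := by
    rw [mem_closedBall, dist_zero_right]
    rw [mem_closedBall, dist_eq_norm] at hy
    have h4 : ‖y‖ ≤ ‖y - x‖ + ‖x‖ := by
      calc ‖y‖ = ‖(y - x) + x‖ := by rw [sub_add_cancel]
        _ ≤ _ := norm_add_le _ _
    linarith [hr.2]
  exact indicator_of_mem this _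

theorem norm_le_sum (x : E3) : ‖x‖ ≤ |x 0| + |x 1| + |x 2| := by
  have h : x = (x 0) • e 0 + (x 1) • e 1 + (x 2) • e 2 := by
    ext j
    fin_cases j <;> simp
  calc ‖x‖ = ‖(x 0) • e 0 + (x 1) • e 1 + (x 2) • e 2‖ := by rw [← h]
    _ ≤ ‖(x 0) • e 0‖ + ‖(x 1) • e 1‖ + ‖(x 2) • e 2‖ := norm_add₃_le
    _ = _ := by simp [norm_smul]

/-- the indices of the vertices close to the line through `x` -/
noncomputable def idx (t : ℝ) (i : Fin 3) (x : E3) (j : ℤ) : Fin 3 → ℤ :=
  fun m => if m = i then j else round (x m / t)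

theorem idx_succ (t : ℝ) (i : Fin 3) (x : E3) (j : ℤ) :
    idx t i x (j + 1) = idx t i x j + Pi.single i 1 := by
  ext m
  by_cases h : m = i
  · subst h; simp [idx]
  · simp [idx, h]

theorem near_vertex {t : ℝ} (ht : 0 < t) (i : Fin 3) (x : E3) (j : ℤ) (s : ℝ)
    (hs : s ∈ Icc (j * t - x i) (j * t - x i + t)) :
    ‖x + s • e i - latt t (idx t i x j)‖ ≤ 2 * t := by
  have hm : ∀ m : Fin 3, m ≠ i → |(x + s • e i - latt t (idx t i x j)) m| ≤ t / 2 := by
    intro m hm
    have e1 : (x + s • e i - latt t (idx t i x j)) m = x m - t * round (x m / t) := by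
      rw [PiLp.sub_apply, PiLp.add_apply, PiLp.smul_apply, latt_apply]
      simp [idx, hm]
    rw [e1]
    have h1 := abs_sub_round (x m / t)
    have e2 : x m - t * round (x m / t) = t * (x m / t - round (x m / t)) := by
      field_simp
    rw [e2, abs_mul, abs_of_pos ht]
    nlinarith
  have hi : |(x + s • e i - latt t (idx t i x j)) i| ≤ t := by
    have e1 : (x + s • e i - latt t (idx t i x j)) i = x i + s - t * j := by
      rw [PiLp.sub_apply, PiLp.add_apply, PiLp.smul_apply, latt_apply]
      simp [idx]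
    rw [e1, abs_le]
    constructor <;> linarith [hs.1, hs.2]
  refine (norm_le_sum _).trans ?_
  fin_cases i
  · have a1 := hm 1 (by decide)
    have a2 := hm 2 (by decide)
    simp only [Fin.zero_eta, Fin.isValue] at hi a1 a2 ⊢
    linarith
  · have a1 := hm 0 (by decide)
    have a2 := hm 2 (by decide)
    simp only [Fin.mk_one, Fin.isValue] at hi a1 a2 ⊢
    linarith
  · have a1 := hm 0 (by decide)
    have a2 := hm 1 (by decide)
    simp only [Fin.reduceFinMk, Fin.isValue] at hi a1 a2 ⊢
    linarith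

/-- the integral over a translated ball -/
noncomputable def Psi (g : E3 → ℝ≥0∞) (i : Fin 3) (x : E3) (r : ℝ) (s : ℝ) : ℝ≥0∞ :=
  ∫⁻ y in closedBall x r, g (y + s • e i)

theorem vertex_le_Psi {g : E3 → ℝ≥0∞} {t : ℝ} (ht : 0 < t) (i : Fin 3)
    (x : E3) (j : ℤ) (s : ℝ) (hs : s ∈ Icc (j * t - x i) (j * t - x i + t)) :
    ∫⁻ z in closedBall (latt t (idx t i x j)) (4 * t), g z ≤ Psi g i x (6 * t) s := by
  unfold Psi
  have h := lint_transl (fun y => g (y + s • e i)) (-(s • e i))
    (closedBall (latt t (idx t i x j)) (4 * t)) (closedBall x (6 * t))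
    isClosed_closedBall.measurableSet isClosed_closedBall.measurableSet (fun v hv => by
      rw [mem_closedBall, dist_eq_norm] at hv ⊢
      have h1 := near_vertex ht i x j s hs
      have e1 : -(s • e i) + v - x = (v - latt t (idx t i x j)) -
        (x + s • e i - latt t (idx t i x j)) := by abel
      rw [e1]
      refine (norm_sub_le _ _).trans ?_
      linarith)
  refine le_trans (le_of_eq ?_) h
  apply lintegral_congr
  intro z
  congr 1
  abel

theorem sum_le_Psi {g : E3 → ℝ≥0∞} {t : ℝ} (ht : 0 < t) (i : Fin 3)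
    (x : E3) (j : ℤ) (N : ℕ) :
    ∑ l ∈ Finset.range N, ENNReal.ofReal t *
      ∫⁻ z in closedBall (latt t (idx t i x (j + l))) (4 * t), g z ≤
    ∫⁻ s in Ico (j * t - x i) (j * t - x i + N * t), Psi g i x (6 * t) s := by
  induction N with
  | zero => simp
  | succ N ih =>
    rw [Finset.sum_range_succ]
    have hU : Ico (j * t - x i) (j * t - x i + ((N + 1 : ℕ) : ℝ) * t) =
        Ico (j * t - x i) (j * t - x i + N * t) ∪
        Ico (j * t - x i + N * t) (j * t - x i + ((N + 1 : ℕ) : ℝ) * t) := by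
      rw [Ico_union_Ico_eq_Ico]
      · have : (0 : ℝ) ≤ N * t := by positivity
        linarith
      · push_cast; linarith
    have hD : Disjoint (Ico (j * t - x i) (j * t - x i + N * t))
        (Ico (j * t - x i + N * t) (j * t - x i + ((N + 1 : ℕ) : ℝ) * t)) := by
      rw [Ico_disjoint_Ico]
      exact (min_le_left _ _).trans (le_max_right _ _)
    rw [hU, lintegral_union measurableSet_Ico hD]
    gcongr
    have hv : ENNReal.ofReal t = volume (Ico (j * t - x i + N * t)
        (j * t - x i + ((N + 1 : ℕ) : ℝ) * t)) := by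
      rw [Real.volume_Ico]; congr 1; push_cast; ring
    rw [hv, mul_comm, ← setLIntegral_const]
    apply setLIntegral_mono' measurableSet_Ico
    intro s hs
    apply vertex_le_Psi ht i x
    push_cast
    constructor
    · linarith [hs.1]
    · have := hs.2; push_cast at this; linarith

theorem Psi_HH {g : E3 → ℝ≥0∞} (hg : Measurable g) (i : Fin 3) (x : E3) (r p q : ℝ) :
    ∫⁻ s in Icc p q, Psi g i x r s = ∫⁻ y in closedBall x r, HH g i p q y := by
  unfold Psi HH
  rw [lintegral_lintegral_swap]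
  apply Measurable.aemeasurable
  apply hg.comp
  fun_prop

/-- the value of the constant -/
noncomputable def C1 : ℝ≥0∞ := volume (closedBall (0 : E3) 6)

theorem vol_6 {t : ℝ} (ht : 0 < t) (x : E3) : volume (closedBall x (6 * t)) =
    ENNReal.ofReal (t ^ 3) * C1 := by
  have := Measure.addHaar_closedBall_mul (volume : Measure E3) x ht.le
    (by norm_num : (0 : ℝ) ≤ 6)
  rw [mul_comm t 6] at this
  simpa [C1] using this

theorem chain_le {f : E3 → E3} {g : E3 → ℝ≥0∞} (hg : Measurable g) {C : ℝ≥0∞} {t : ℝ}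
    (ht : 0 < t) {F : (Fin 3 → ℤ) → E3} {i : Fin 3}
    (hE : ∀ z : Fin 3 → ℤ, edist (F (z + Pi.single i 1)) (F z) ≤
      C * (ENNReal.ofReal (t ^ 2))⁻¹ * ∫⁻ x in closedBall (latt t z) (4 * t), g x)
    (x : E3) {a b p q ε : ℝ} (hab : a ≤ b) (hp : p + t ≤ a) (hq : b ≤ q)
    (hF : ∀ s ∈ Icc a b, ∀ z : Fin 3 → ℤ, ‖x + s • e i - latt t z‖ ≤ 2 * t →
      edist (F z) (f (x + s • e i)) ≤ ENNReal.ofReal ε) :
    edist (f (x + a • e i)) (f (x + b • e i)) ≤ ENNReal.ofReal ε + ENNReal.ofReal ε +
      C * C1 * ((∫⁻ y in closedBall x (6 * t), HH g i p q y) / volume (closedBall x (6 * t))) := by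
  set ja : ℤ := ⌊(x i + a) / t⌋ with hja
  set jb : ℤ := ⌊(x i + b) / t⌋ with hjb
  have hjab : ja ≤ jb := Int.floor_le_floor (by gcongr)
  obtain ⟨N, hN⟩ := Int.eq_ofNat_of_zero_le (sub_nonneg.2 hjab)
  have hjbN : jb = ja + N := by omega
  have fa1 : (ja : ℝ) * t ≤ x i + a := by
    have := Int.floor_le ((x i + a) / t)
    rw [le_div_iff₀ ht] at this; exact this
  have fa2 : x i + a ≤ (ja : ℝ) * t + t := by
    have := (Int.lt_floor_add_one ((x i + a) / t)).le
    rw [div_le_iff₀ ht] at this
    rw [hja]; linarith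
  have fb1 : (jb : ℝ) * t ≤ x i + b := by
    have := Int.floor_le ((x i + b) / t)
    rw [le_div_iff₀ ht] at this; exact this
  have fb2 : x i + b ≤ (jb : ℝ) * t + t := by
    have := (Int.lt_floor_add_one ((x i + b) / t)).le
    rw [div_le_iff₀ ht] at this
    rw [hjb]; linarith
  have ea : edist (f (x + a • e i)) (F (idx t i x ja)) ≤ ENNReal.ofReal ε := by
    rw [edist_comm]
    apply hF a ⟨le_rfl, hab⟩
    apply near_vertex ht
    constructor <;> linarith
  have eb : edist (F (idx t i x jb)) (f (x + b • e i)) ≤ ENNReal.ofReal ε := by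
    apply hF b ⟨hab, le_rfl⟩
    apply near_vertex ht
    constructor <;> linarith
  have hsum : edist (F (idx t i x ja)) (F (idx t i x jb)) ≤
      ∑ l ∈ Finset.range N, C * (ENNReal.ofReal (t ^ 2))⁻¹ *
        ∫⁻ z in closedBall (latt t (idx t i x (ja + l))) (4 * t), g z := by
    have h1 := edist_le_range_sum_edist (fun l : ℕ => F (idx t i x (ja + l))) N
    simp only [Nat.cast_zero, add_zero] at h1
    rw [hjbN]
    refine h1.trans (Finset.sum_le_sum fun l _ => ?_)
    rw [edist_comm]
    have h2 := hE (idx t i x (ja + l))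
    rw [← idx_succ] at h2
    rwa [show ((ja : ℤ) + ((l + 1 : ℕ) : ℤ)) = ja + l + 1 by push_cast; ring]
  have t0 : ENNReal.ofReal t ≠ 0 := (ENNReal.ofReal_pos.2 ht).ne'
  have t1 : ENNReal.ofReal t ≠ ∞ := ENNReal.ofReal_ne_top
  have hsum2 : ∑ l ∈ Finset.range N, C * (ENNReal.ofReal (t ^ 2))⁻¹ *
        ∫⁻ z in closedBall (latt t (idx t i x (ja + l))) (4 * t), g z ≤
      C * (ENNReal.ofReal (t ^ 2))⁻¹ * (ENNReal.ofReal t)⁻¹ *
        ∫⁻ y in closedBall x (6 * t), HH g i p q y := by
    rw [← Finset.mul_sum]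
    have h1 := sum_le_Psi (g := g) ht i x ja N
    rw [← Finset.mul_sum] at h1
    have h2 : ∫⁻ s in Ico (ja * t - x i) (ja * t - x i + N * t), Psi g i x (6 * t) s ≤
        ∫⁻ s in Icc p q, Psi g i x (6 * t) s := by
      apply lintegral_mono_set
      intro s hs
      have h3 : (jb : ℝ) = ja + N := by rw [hjbN]; push_cast; ring
      rw [h3] at fb1
      constructor
      · linarith [hs.1]
      · linarith [hs.2]
    rw [Psi_HH hg] at h2
    have h4 := h1.trans h2
    calc C * (ENNReal.ofReal (t ^ 2))⁻¹ * ∑ l ∈ Finset.range N,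
          ∫⁻ z in closedBall (latt t (idx t i x (ja + l))) (4 * t), g z
        = C * (ENNReal.ofReal (t ^ 2))⁻¹ * ((ENNReal.ofReal t)⁻¹ * (ENNReal.ofReal t *
          ∑ l ∈ Finset.range N,
          ∫⁻ z in closedBall (latt t (idx t i x (ja + l))) (4 * t), g z)) := by
          congr 1
          rw [← mul_assoc, ENNReal.inv_mul_cancel t0 t1, one_mul]
      _ ≤ C * (ENNReal.ofReal (t ^ 2))⁻¹ * ((ENNReal.ofReal t)⁻¹ *
          ∫⁻ y in closedBall x (6 * t), HH g i p q y) := by gcongr
      _ = _ := by ring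
  have hconst : C * (ENNReal.ofReal (t ^ 2))⁻¹ * (ENNReal.ofReal t)⁻¹ *
        ∫⁻ y in closedBall x (6 * t), HH g i p q y =
      C * C1 * ((∫⁻ y in closedBall x (6 * t), HH g i p q y) / volume (closedBall x (6 * t))) := by
    have u0 : ENNReal.ofReal (t ^ 2) ≠ 0 := (ENNReal.ofReal_pos.2 (by positivity)).ne'
    have u1 : ENNReal.ofReal (t ^ 2) ≠ ∞ := ENNReal.ofReal_ne_top
    have c0 : C1 ≠ 0 := vol_V_ne_zero (by norm_num)
    have c1 : C1 ≠ ∞ := vol_V_ne_top _
    rw [vol_6 ht, div_eq_mul_inv]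
    have h1 : ENNReal.ofReal (t ^ 3) = ENNReal.ofReal (t ^ 2) * ENNReal.ofReal t := by
      rw [← ENNReal.ofReal_mul (by positivity)]; ring_nf
    rw [h1, ENNReal.mul_inv (Or.inl (mul_ne_zero u0 t0)) (Or.inl (ENNReal.mul_ne_top u1 t1)),
      ENNReal.mul_inv (Or.inl u0) (Or.inl u1)]
    calc C * (ENNReal.ofReal (t ^ 2))⁻¹ * (ENNReal.ofReal t)⁻¹ *
          ∫⁻ y in closedBall x (6 * t), HH g i p q y
        = C * (ENNReal.ofReal (t ^ 2))⁻¹ * (ENNReal.ofReal t)⁻¹ *
          (∫⁻ y in closedBall x (6 * t), HH g i p q y) * (C1 * C1⁻¹) := by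
          rw [ENNReal.mul_inv_cancel c0 c1, mul_one]
      _ = _ := by ring
  calc edist (f (x + a • e i)) (f (x + b • e i))
      ≤ edist (f (x + a • e i)) (F (idx t i x ja)) + edist (F (idx t i x ja)) (F (idx t i x jb)) +
        edist (F (idx t i x jb)) (f (x + b • e i)) := edist_triangle4 _ _ _ _
    _ ≤ ENNReal.ofReal ε + (C * C1 * ((∫⁻ y in closedBall x (6 * t), HH g i p q y) /
        volume (closedBall x (6 * t)))) + ENNReal.ofReal ε := by
        gcongr
        exact hsum.trans (hsum2.trans hconst.le)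
    _ = _ := by ring

theorem line_bound (f : E3 → E3) (hf : Continuous f) (g : E3 → ℝ≥0∞) (hg : Measurable g)
    (hfin : ∀ R : ℝ, ∫⁻ x in closedBall (0 : E3) R, g x < ∞)
    (C : ℝ≥0∞) (hC : C ≠ ∞) (t : ℕ → ℝ) (ht : ∀ k, 0 < t k) (ht0 : Tendsto t atTop (𝓝 0))
    (F : ℕ → (Fin 3 → ℤ) → E3)
    (hF : ∀ (k : ℕ) (z : Fin 3 → ℤ) (y : E3) (ε : ℝ), 0 ≤ ε →
      (∀ x ∈ closedBall (latt (t k) z) (2 * t k), dist (f x) y ≤ ε) → dist (F k z) y ≤ ε)
    (i : Fin 3)
    (hE : ∀ (k : ℕ) (z : Fin 3 → ℤ), edist (F k (z + Pi.single i 1)) (F k z) ≤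
      C * (ENNReal.ofReal (t k ^ 2))⁻¹ * ∫⁻ x in closedBall (latt (t k) z) (4 * t k), g x) :
    ∀ᵐ x : E3, ∀ a b : ℝ, a < b →
      edist (f (x + a • e i)) (f (x + b • e i)) ≤
        C * C1 * ∫⁻ s in Ioo a b, g (x + s • e i) := by
  filter_upwards [HH_leb hg hfin i] with x hx
  have hfl : Continuous fun s : ℝ => f (x + s • e i) := hf.comp (by fun_prop)
  have hlim : ∀ p q : ℚ, Tendsto (fun k => (∫⁻ y in closedBall x (6 * t k), HH g i p q y) /
      volume (closedBall x (6 * t k))) atTop (𝓝 (HH g i p q x)) := by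
    intro p q
    have h6 : Tendsto (fun k => 6 * t k) atTop (𝓝[>] 0) := by
      apply tendsto_nhdsWithin_of_tendsto_nhds_of_eventually_within
      · simpa using ht0.const_mul 6
      · exact Eventually.of_forall fun k => by
          have := ht k
          simp only [mem_Ioi]; positivity
    exact (hx p q).comp h6
  -- the inequality with rational end points
  have key : ∀ a b : ℝ, a ≤ b → ∀ p q : ℚ, (p : ℝ) < a → b ≤ q →
      edist (f (x + a • e i)) (f (x + b • e i)) ≤ C * C1 * HH g i p q x := by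
    intro a b hab p q hp hq
    have hmain : ∀ ε : ℝ, 0 < ε → edist (f (x + a • e i)) (f (x + b • e i)) ≤
        ENNReal.ofReal ε + ENNReal.ofReal ε + C * C1 * HH g i p q x := by
      intro ε hε
      -- uniform continuity on a compact neighbourhood
      have huc : ∃ δ > 0, ∀ s ∈ Icc a b, ∀ z : E3, ‖x + s • e i - z‖ < δ →
          dist (f z) (f (x + s • e i)) ≤ ε := by
        have hK : IsCompact (closedBall (0 : E3) (‖x‖ + |a| + |b| + 1)) := isCompact_closedBall _ _
        have := hK.uniformContinuousOn_of_continuous hf.continuousOn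
        rw [Metric.uniformContinuousOn_iff] at this
        obtain ⟨δ, hδ, h⟩ := this ε hε
        refine ⟨min δ 1, by positivity, ?_⟩
        intro s hs z hz
        have hs1 : |s| ≤ |a| + |b| := by
          rcases abs_cases s with h | h <;> rcases abs_cases a with h' | h' <;>
            rcases abs_cases b with h'' | h'' <;> linarith [hs.1, hs.2]
        have hn : ‖x + s • e i‖ ≤ ‖x‖ + |a| + |b| := by
          refine (norm_add_le _ _).trans ?_
          rw [norm_smul, norm_e, mul_one, Real.norm_eq_abs]; linarith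
        have hz1 := lt_of_lt_of_le hz (min_le_right _ _)
        have hz2 := lt_of_lt_of_le hz (min_le_left _ _)
        apply (h z _ (x + s • e i) _ _).le
        · rw [mem_closedBall, dist_zero_right]
          have : ‖z‖ ≤ ‖x + s • e i‖ + ‖x + s • e i - z‖ := by
            calc ‖z‖ = ‖(x + s • e i) - (x + s • e i - z)‖ := by congr 1; abel
              _ ≤ _ := norm_sub_le _ _
          linarith
        · rw [mem_closedBall, dist_zero_right]; linarith
        · rw [dist_comm, dist_eq_norm]; exact hz2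
      obtain ⟨δ, hδ, huc⟩ := huc
      have hev : ∀ᶠ k in atTop, edist (f (x + a • e i)) (f (x + b • e i)) ≤
          ENNReal.ofReal ε + ENNReal.ofReal ε +
          C * C1 * ((∫⁻ y in closedBall x (6 * t k), HH g i p q y) /
            volume (closedBall x (6 * t k))) := by
        have h1 : ∀ᶠ k in atTop, t k < min (δ / 4) (a - p) :=
          ht0.eventually (gt_mem_nhds (by
            have : 0 < a - (p : ℝ) := by linarith
            positivity))
        filter_upwards [h1] with k hk
        have hk1 := lt_of_lt_of_le hk (min_le_left _ _)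
        have hk2 := lt_of_lt_of_le hk (min_le_right _ _)
        apply chain_le (f := f) hg (ht k) (hE k) x hab (by linarith) hq
        intro s hs z hz
        rw [edist_dist]
        apply ENNReal.ofReal_le_ofReal
        apply hF k z _ ε hε.le
        intro y hy
        apply huc s hs
        rw [mem_closedBall, dist_eq_norm] at hy
        have e1 : x + s • e i - y = (x + s • e i - latt (t k) z) - (y - latt (t k) z) := by abel
        rw [e1]
        refine lt_of_le_of_lt (norm_sub_le _ _) ?_
        linarith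
      have hC1 : C * C1 ≠ ∞ := ENNReal.mul_ne_top hC (vol_V_ne_top _)
      have hl := (ENNReal.Tendsto.const_mul (hlim p q) (Or.inr hC1)).const_add
        (ENNReal.ofReal ε + ENNReal.ofReal ε)
      exact ge_of_tendsto hl hev
    have hε : Tendsto (fun ε : ℝ => ENNReal.ofReal ε + ENNReal.ofReal ε + C * C1 * HH g i p q x)
        (𝓝[>] 0) (𝓝 (0 + 0 + C * C1 * HH g i p q x)) := by
      have h0 : Tendsto (fun ε : ℝ => ENNReal.ofReal ε) (𝓝[>] 0) (𝓝 0) := by
        have : Tendsto (fun ε : ℝ => ENNReal.ofReal ε) (𝓝 0) (𝓝 (ENNReal.ofReal 0)) :=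
          (ENNReal.continuous_ofReal.tendsto 0)
        rw [ENNReal.ofReal_zero] at this
        exact this.mono_left nhdsWithin_le_nhds
      exact (h0.add h0).add tendsto_const_nhds
    rw [zero_add, zero_add] at hε
    apply ge_of_tendsto hε
    filter_upwards [self_mem_nhdsWithin] with ε hε
    exact hmain ε hε
  -- passing to the open interval
  intro a b hab
  have key2 : ∀ a' b' : ℝ, a < a' → a' ≤ b' → b' < b →
      edist (f (x + a' • e i)) (f (x + b' • e i)) ≤
        C * C1 * ∫⁻ s in Ioo a b, g (x + s • e i) := by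
    intro a' b' h1 h2 h3
    obtain ⟨p, hp1, hp2⟩ := exists_rat_btwn h1
    obtain ⟨q, hq1, hq2⟩ := exists_rat_btwn h3
    refine (key a' b' h2 p q hp2 hq1.le).trans ?_
    unfold HH
    gcongr
    exact fun s hs => ⟨hp1.trans_le hs.1, hs.2.trans_lt hq2⟩
  have hla : Tendsto (fun n : ℕ => a + (b - a) / 2 / (n + 1)) atTop (𝓝 a) := by
    have := (tendsto_one_div_add_atTop_nhds_zero_nat (𝕜 := ℝ)).const_mul ((b - a) / 2)
    have h2 := this.const_add a
    simp only [mul_zero, add_zero] at h2
    refine h2.congr fun n => ?_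
    ring
  have hlb : Tendsto (fun n : ℕ => b - (b - a) / 2 / (n + 1)) atTop (𝓝 b) := by
    have := (tendsto_one_div_add_atTop_nhds_zero_nat (𝕜 := ℝ)).const_mul ((b - a) / 2)
    have h2 := this.const_sub b
    simp only [mul_zero, sub_zero] at h2
    refine h2.congr fun n => ?_
    ring
  have hl : Tendsto (fun n : ℕ => edist (f (x + (a + (b - a) / 2 / (n + 1)) • e i))
      (f (x + (b - (b - a) / 2 / (n + 1)) • e i))) atTop
      (𝓝 (edist (f (x + a • e i)) (f (x + b • e i)))) :=
    ((hfl.tendsto a).comp hla).edist ((hfl.tendsto b).comp hlb)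
  apply le_of_tendsto hl
  filter_upwards with n
  have hpos : 0 < (b - a) / 2 / ((n : ℝ) + 1) := by
    have : 0 < b - a := by linarith
    positivity
  have hle : (b - a) / 2 / ((n : ℝ) + 1) ≤ (b - a) / 2 := by
    apply div_le_self
    · linarith
    · have : (0 : ℝ) ≤ n := Nat.cast_nonneg n
      linarith
  apply key2
  · linarith
  · linarith
  · linarith

end CNEDLink
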