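import Pool.Agent.Helper20_CNED.Meas
import Pool.Agent.Helper20_CNED.Lam
import Pool.Agent.Helper83_CNED.Asm
import Pool.Agent.Helper52_CNED.NotCned
import Pool.Agent.Helper52_CNED.ModPos
import Pool.Agent.Helper3_CNED.Link
import Pool.Agent.Helper1_CNED.Aclug
import Pool.Agent.Helper72_CNED.Area
import Pool.Agent.Helper72_CNED.AclOf

open MeasureTheory Set Metric Filter
open scoped ENNReal NNReal Topology

namespace CNEDLink

open Pool.Agent.Helper83_CNED (line UG ob rectA rectB LinkStmt)

/-! ### LINK -/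

theorem linkHyp : LinkHyp := by
  intro f t c v v' ht hv hv'
  set p : E3 := c + v with hp
  set q : E3 := c + t • halfs + v' with hq
  have hpj : ∀ j, p j = c j + v j := fun j => by rw [hp, PiLp.add_apply]
  have hqj : ∀ j, q j = c j + t / 2 + v' j := fun j => by
    rw [hq, PiLp.add_apply, PiLp.add_apply, PiLp.smul_apply]
    simp [halfs]; ring
  have av : ∀ j, -(t / 8) ≤ v j ∧ v j ≤ t / 8 := fun j => abs_le.1 (hv j)
  have av' : ∀ j, -(t / 8) ≤ v' j ∧ v' j ≤ t / 8 := fun j => abs_le.1 (hv' j)
  have hA : rectA (p 0) (p 0 + t) (p 1) (p 1 + t) (p 2) ⊆ loopA t p := by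
    rintro x ⟨h2, ⟨h0, h0'⟩, ⟨h1, h1'⟩, h⟩
    refine ⟨(x 0 - p 0) / t, (x 1 - p 1) / t, ⟨?_, ?_⟩, ⟨?_, ?_⟩, ?_, ?_⟩
    · apply div_nonneg _ ht.le; linarith
    · rw [div_le_one ht]; linarith
    · apply div_nonneg _ ht.le; linarith
    · rw [div_le_one ht]; linarith
    · rcases h with h | h | h | h
      · left; rw [h, sub_self, zero_div]
      · right; left; rw [h, add_sub_cancel_left, div_self ht.ne']
      · right; right; left; rw [h, sub_self, zero_div]
      · right; right; right; rw [h, add_sub_cancel_left, div_self ht.ne']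
    · rw [mul_div_cancel₀ _ ht.ne', mul_div_cancel₀ _ ht.ne']
      ext j
      fin_cases j
      · simp
      · simp
      · simp [h2]
  have hB : rectB (q 0) (q 0 + t) (q 1) (q 2 - t) (q 2) ⊆ loopB t q := by
    rintro x ⟨h1, ⟨h0, h0'⟩, ⟨h2, h2'⟩, h⟩
    refine ⟨(x 0 - q 0) / t, (q 2 - x 2) / t, ⟨?_, ?_⟩, ⟨?_, ?_⟩, ?_, ?_⟩
    · apply div_nonneg _ ht.le; linarith
    · rw [div_le_one ht]; linarith
    · apply div_nonneg _ ht.le; linarith
    · rw [div_le_one ht]; linarith
    · rcases h with h | h | h | h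
      · left; rw [h, sub_self, zero_div]
      · right; left; rw [h, add_sub_cancel_left, div_self ht.ne']
      · right; right; right; rw [h, sub_sub_cancel, div_self ht.ne']
      · right; right; left; rw [h, sub_self, zero_div]
    · rw [mul_div_cancel₀ _ ht.ne', mul_div_cancel₀ _ ht.ne']
      ext j
      fin_cases j
      · simp
      · simp [h1]
      · simp
  obtain ⟨x, hx, y, hy, hxy⟩ := Pool.Agent.Helper83_CNED.H3.link f (p 0) (p 0 + t) (q 0) (q 0 + t)
    (p 1) (p 1 + t) (q 1) (q 2 - t) (q 2) (p 2)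
    (by rw [hpj, hqj]; linarith [(av 0).2, (av' 0).1])
    (by rw [hpj, hqj]; linarith [(av 0).1, (av' 0).2])
    (by rw [hpj, hqj]; linarith [(av 0).2, (av' 0).1])
    (by rw [hpj, hqj]; linarith [(av 1).2, (av' 1).1])
    (by rw [hpj, hqj]; linarith [(av 1).1, (av' 1).2])
    (by rw [hpj, hqj]; linarith [(av 2).1, (av' 2).2])
    (by rw [hpj, hqj]; linarith [(av 2).2, (av' 2).1])
  exact ⟨x, hA hx, y, hB hy, hxy.trans (Metric.ediam_mono (image_mono hA))⟩

/-! ### from boxes to segments -/

theorem line_eq (x : E3) (i : Fin 3) (a : ℝ) : line x i (x i + a) = x + a • e i := by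
  unfold line
  rw [add_sub_cancel_left]

theorem lintegral_line (g : E3 → ℝ≥0∞) (x : E3) (i : Fin 3) (a b : ℝ) :
    ∫⁻ r in Ioo (x i + a) (x i + b), g (line x i r) = ∫⁻ s in Ioo a b, g (x + s • e i) := by
  rw [← lintegral_indicator measurableSet_Ioo, ← lintegral_indicator measurableSet_Ioo,
    ← lintegral_sub_right_eq_self ((Ioo a b).indicator (fun s => g (x + s • e i))) (x i)]
  apply lintegral_congr
  intro r
  by_cases h : r ∈ Ioo (x i + a) (x i + b)
  · have h' : r - x i ∈ Ioo a b := ⟨by linarith [h.1], by linarith [h.2]⟩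
    rw [indicator_of_mem h, indicator_of_mem h']
    rfl
  · have h' : r - x i ∉ Ioo a b := fun h' => h ⟨by linarith [h'.1], by linarith [h'.2]⟩
    rw [indicator_of_notMem h, indicator_of_notMem h']

theorem segUG_of (f : E3 → E3) (g : E3 → ℝ≥0∞) (U : Set E3) (hU : IsOpen U)
    (h : ∀ (i : Fin 3) (a b : Fin 3 → ℝ), ob a b ⊆ U → UG f g i a b) (i : Fin 3) :
    SegUG f g U i := by
  have h1 : ∀ᵐ x : E3, ∀ A B : Fin 3 → ℚ, ob (fun j => (A j : ℝ)) (fun j => (B j : ℝ)) ⊆ U →
      (∀ j, j ≠ i → (A j : ℝ) < x j ∧ x j < B j) → ∀ s t : ℝ, (A i : ℝ) < s → s ≤ t →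
      t < B i → edist (f (line x i s)) (f (line x i t)) ≤ ∫⁻ r in Ioo s t, g (line x i r) := by
    rw [ae_all_iff]; intro A; rw [ae_all_iff]; intro B
    by_cases hAB : ob (fun j => (A j : ℝ)) (fun j => (B j : ℝ)) ⊆ U
    · filter_upwards [h i _ _ hAB] with x hx _
      exact hx
    · exact Eventually.of_forall fun x h => absurd h hAB
  filter_upwards [h1] with x hx a b hab hseg
  have hK : IsCompact ((fun s : ℝ => x + s • e i) '' Icc a b) :=
    isCompact_Icc.image (by fun_prop)
  have hKU : (fun s : ℝ => x + s • e i) '' Icc a b ⊆ U := by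
    rintro _ ⟨s, hs, rfl⟩; exact hseg s hs
  obtain ⟨δ, hδ, hthick⟩ := hK.exists_thickening_subset_open hU hKU
  have hd : 0 < δ / 4 := by positivity
  have hA : ∀ j, ∃ A : ℚ, (if j = i then x i + a else x j) - δ / 4 < A ∧
      (A : ℝ) < (if j = i then x i + a else x j) := fun j => exists_rat_btwn (by linarith)
  have hB : ∀ j, ∃ B : ℚ, (if j = i then x i + b else x j) < B ∧
      (B : ℝ) < (if j = i then x i + b else x j) + δ / 4 := fun j => exists_rat_btwn (by linarith)
  choose A hA1 hA2 using hA
  choose B hB1 hB2 using hB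
  have hsub : ob (fun j => (A j : ℝ)) (fun j => (B j : ℝ)) ⊆ U := by
    intro y hy
    apply hthick
    rw [mem_thickening_iff]
    set s : ℝ := max a (min b (y i - x i)) with hs
    have hs1 : s ∈ Icc a b := ⟨le_max_left _ _, max_le hab (min_le_left _ _)⟩
    refine ⟨x + s • e i, ⟨s, hs1, rfl⟩, ?_⟩
    rw [dist_eq_norm]
    have hj : ∀ j, j ≠ i → |(y - (x + s • e i)) j| < δ / 4 := by
      intro j hj
      have e1 : (y - (x + s • e i)) j = y j - x j := by
        rw [PiLp.sub_apply, PiLp.add_apply, PiLp.smul_apply]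
        simp [hj]
      rw [e1, abs_lt]
      have b1 := hA1 j
      have b2 := hB2 j
      rw [if_neg hj] at b1 b2
      have b3 := hy j
      constructor <;> linarith [b3.1, b3.2]
    have hi : |(y - (x + s • e i)) i| < δ / 4 := by
      have e1 : (y - (x + s • e i)) i = (y i - x i) - s := by
        rw [PiLp.sub_apply, PiLp.add_apply, PiLp.smul_apply]
        simp; ring
      have b1 := hA1 i
      have b2 := hB2 i
      rw [if_pos rfl] at b1 b2
      have b3 := hy i
      rw [e1, abs_lt]
      rcases le_total (y i - x i) a with h3 | h3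
      · have : s = a := by
          rw [hs]; apply max_eq_left; exact (min_le_right _ _).trans h3
        rw [this]
        constructor <;> linarith [b3.1, b3.2]
      · rcases le_total b (y i - x i) with h4 | h4
        · have : s = b := by rw [hs, min_eq_left h4, max_eq_right hab]
          rw [this]
          constructor <;> linarith [b3.1, b3.2]
        · have : s = y i - x i := by rw [hs, min_eq_right h4, max_eq_right h3]
          rw [this]
          constructor <;> linarith
    refine lt_of_le_of_lt (norm_le_sum _) ?_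
    fin_cases i
    · have a1 := hj 1 (by decide)
      have a2 := hj 2 (by decide)
      simp only [Fin.zero_eta, Fin.isValue] at hi a1 a2 ⊢
      linarith
    · have a1 := hj 0 (by decide)
      have a2 := hj 2 (by decide)
      simp only [Fin.mk_one, Fin.isValue] at hi a1 a2 ⊢
      linarith
    · have a1 := hj 0 (by decide)
      have a2 := hj 1 (by decide)
      simp only [Fin.reduceFinMk, Fin.isValue] at hi a1 a2 ⊢
      linarith
  have h2 := hx A B hsub (fun j hj => by
    have b1 := hA2 j
    have b2 := hB1 j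
    rw [if_neg hj] at b1 b2
    exact ⟨b1, b2⟩) (x i + a) (x i + b) (by have := hA2 i; rwa [if_pos rfl] at this)
    (by linarith) (by have := hB1 i; rwa [if_pos rfl] at this)
  rw [line_eq, line_eq, lintegral_line] at h2
  exact h2.trans (lintegral_mono_set Ioo_subset_Icc_self)

/-! ### the averages -/

theorem avg_close (A : E3 → E3) (hA : Continuous A) {r : ℝ} (hr : 0 < r) (y : E3) (ε : ℝ)
    (hε : 0 ≤ ε) (h : ∀ v ∈ closedBall (0 : E3) r, dist (A v) y ≤ ε) :
    dist (⨍ v in closedBall (0 : E3) r, A v) y ≤ ε := by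
  have h1 := edist_avg A (fun _ => y) hA continuous_const hr
  rw [avg_const y hr] at h1
  have h2 : ∫⁻ v in closedBall (0 : E3) r, edist (A v) y ≤
      ENNReal.ofReal ε * volume (closedBall (0 : E3) r) := by
    rw [← setLIntegral_const]
    apply setLIntegral_mono' isClosed_closedBall.measurableSet
    intro v hv
    rw [edist_dist]
    exact ENNReal.ofReal_le_ofReal (h v hv)
  have h3 : edist (⨍ v in closedBall (0 : E3) r, A v) y ≤ ENNReal.ofReal ε := by
    refine h1.trans ?_
    calc _ ≤ (volume (closedBall (0 : E3) r))⁻¹ *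
          (ENNReal.ofReal ε * volume (closedBall (0 : E3) r)) := by gcongr
      _ = ENNReal.ofReal ε := by
        rw [mul_comm (ENNReal.ofReal ε), ← mul_assoc,
          ENNReal.inv_mul_cancel (vol_V_ne_zero hr) (vol_V_ne_top r), one_mul]
  rw [edist_dist] at h3
  exact (ENNReal.ofReal_le_ofReal_iff hε).1 h3

open Classical in
/-- the value of `f` attached to a vertex -/
noncomputable def FF (f : E3 → E3) (k : ℕ) (z : Fin 3 → ℤ) : E3 :=
  if dz (ht k (latt (scale k) z)) ≤ 1 / 4 then F1 f (scale k) (latt (scale k) z)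
  else F2 f (scale k) (latt (scale k) z)

theorem FF_close (f : E3 → E3) (hf : Continuous f) (k : ℕ) (z : Fin 3 → ℤ) (y : E3) (ε : ℝ)
    (hε : 0 ≤ ε) (h : ∀ x ∈ closedBall (latt (scale k) z) (2 * scale k), dist (f x) y ≤ ε) :
    dist (FF f k z) y ≤ ε := by
  have tp := scale_pos k
  have h8 : 0 < scale k / 8 := by positivity
  unfold FF
  split_ifs
  · unfold F1
    apply avg_close (fun v => f (latt (scale k) z + v)) (hf.comp (by fun_prop)) h8 y ε hε
    intro v hv
    apply h
    rw [mem_closedBall, dist_zero_right] at hv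
    rw [mem_closedBall, dist_eq_norm, add_sub_cancel_left]
    linarith
  · unfold F2
    apply avg_close (fun v => f (latt (scale k) z + scale k • halfs + v))
      (hf.comp (by fun_prop)) h8 y ε hε
    intro v hv
    apply h
    rw [mem_closedBall, dist_zero_right] at hv
    rw [mem_closedBall, dist_eq_norm]
    have e1 : latt (scale k) z + scale k • halfs + v - latt (scale k) z =
      scale k • halfs + v := by abel
    rw [e1]
    refine (norm_add_le _ _).trans ?_
    rw [norm_smul, Real.norm_of_nonneg tp.le]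
    nlinarith [norm_halfs]

theorem FF_edge (f : E3 ≃ₜ E3) {g : E3 → ℝ≥0∞} (hg : Measurable g)
    (hS : ∀ i, SegUG f g setEᶜ i) (k : ℕ) (z : Fin 3 → ℤ) (i : Fin 3) :
    edist (FF f k (z + Pi.single i 1)) (FF f k z) ≤
      2 * C0 * (ENNReal.ofReal (scale k ^ 2))⁻¹ *
        ∫⁻ x in closedBall (latt (scale k) z) (4 * scale k), g x := by
  have tp := scale_pos k
  have hadj := abs_le.1 (dz_ht_adj k z i)
  set c := latt (scale k) z with hc
  have hc' : latt (scale k) (z + Pi.single i 1) = c + scale k • e i := latt_add_single _ _ _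
  unfold FF
  rw [hc'] at hadj ⊢
  rw [← hc]
  set K := C0 * (ENNReal.ofReal (scale k ^ 2))⁻¹ *
        ∫⁻ x in closedBall c (4 * scale k), g x with hK
  have hK2 : 2 * C0 * (ENNReal.ofReal (scale k ^ 2))⁻¹ *
        ∫⁻ x in closedBall c (4 * scale k), g x = K + K := by rw [hK]; ring
  rw [hK2]
  by_cases h1 : dz (ht k (c + scale k • e i)) ≤ 1 / 4 <;> by_cases h2 : dz (ht k c) ≤ 1 / 4
  · rw [if_pos h1, if_pos h2]
    exact (edge1 f.continuous hg (hS i) tp c (type1_of k z (by linarith))).trans le_self_add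
  · rw [if_pos h1, if_neg h2]
    push Not at h2
    have T1 := type1_of k z (by linarith)
    have T2 := type2_of k z (by linarith)
    calc _ ≤ edist (F1 f (scale k) (c + scale k • e i)) (F1 f (scale k) c) +
          edist (F1 f (scale k) c) (F2 f (scale k) c) := edist_triangle _ _ _
      _ ≤ K + K := add_le_add (edge1 f.continuous hg (hS i) tp c T1)
          (edge12 linkHyp f hg hS tp c T1 T2)
  · rw [if_neg h1, if_pos h2]
    push Not at h1
    have T1 := type1_of k z (by linarith)
    have T2 := type2_of k z (by linarith)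
    calc _ ≤ edist (F2 f (scale k) (c + scale k • e i)) (F2 f (scale k) c) +
          edist (F2 f (scale k) c) (F1 f (scale k) c) := edist_triangle _ _ _
      _ ≤ K + K := add_le_add (edge2 f.continuous hg (hS i) tp c T2)
          (by rw [edist_comm]; exact edge12 linkHyp f hg hS tp c T1 T2)
  · rw [if_neg h1, if_neg h2]
    push Not at h2
    exact (edge2 f.continuous hg (hS i) tp c (type2_of k z (by linarith))).trans le_self_add

theorem C0_ne_top : C0 ≠ ∞ := by
  unfold C0
  exact ENNReal.mul_ne_top (by norm_num) (ENNReal.inv_ne_top.2 (vol_V_ne_zero (by norm_num)))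

theorem lines (f : E3 ≃ₜ E3) {g : E3 → ℝ≥0∞} (hg : Measurable g)
    (hS : ∀ i, SegUG f g setEᶜ i)
    (hfin : ∀ R : ℝ, ∫⁻ x in closedBall (0 : E3) R, g x < ∞) (i : Fin 3) :
    ∀ᵐ p : E3, ∀ s t : ℝ, s ≤ t → edist (f (line p i s)) (f (line p i t)) ≤
      ∫⁻ r in Ioo s t, (2 * C0 * C1 * g (line p i r)) := by
  have h := line_bound f f.continuous g hg hfin (2 * C0)
    (ENNReal.mul_ne_top (by norm_num) C0_ne_top) scale scale_pos tendsto_scale (FF f)
    (fun k z y ε hε h => FF_close f f.continuous k z y ε hε h) i (fun k z => FF_edge f hg hS k z i)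
  filter_upwards [h] with p hp s t hst
  rcases hst.eq_or_lt with rfl | hst
  · simp
  · have h1 := hp (s - p i) (t - p i) (by linarith)
    have es : line p i s = p + (s - p i) • e i := rfl
    have et : line p i t = p + (t - p i) • e i := rfl
    rw [es, et]
    refine h1.trans (le_of_eq ?_)
    have h2 := lintegral_line g p i (s - p i) (t - p i)
    rw [add_sub_cancel, add_sub_cancel] at h2
    rw [← h2, lintegral_const_mul']
    exact ENNReal.mul_ne_top (ENNReal.mul_ne_top (by norm_num) C0_ne_top) (vol_V_ne_top _)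

theorem removable : Pool.Agent.Helper83_CNED.QCHRemovable setE := by
  rintro f ⟨K, hK⟩
  refine ⟨K, ?_⟩
  have hU : IsOpen (setEᶜ : Set E3) := isClosed_setE.isOpen_compl
  have hg : Measurable fun x => ‖fderiv ℝ f x‖ₑ := (measurable_fderiv ℝ f).enorm
  have h0 : ∀ᵐ x : E3, x ∉ setE := by
    rw [ae_iff]
    simpa using volume_setE
  have hint : ∀ r : ℝ, ∫⁻ x in closedBall (0 : E3) r, ‖fderiv ℝ f x‖ₑ < ∞ := by
    intro r
    have h1 := Pool.Agent.Helper83_CNED.H72.area K f setEᶜ hU hK r
    refine lt_of_le_of_lt (le_of_eq ?_) h1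
    apply setLIntegral_congr
    apply ae_eq_set.2
    constructor
    · have : closedBall (0 : E3) r \ (closedBall 0 r ∩ setEᶜ) ⊆ setE := by
        intro x hx
        by_contra hcon
        exact hx.2 ⟨hx.1, hcon⟩
      exact measure_mono_null this volume_setE
    · have : (closedBall (0 : E3) r ∩ setEᶜ) \ closedBall 0 r = ∅ := by
        ext x; simp +contextual
      rw [this]; simp
  have hS : ∀ i, SegUG f (fun x => ‖fderiv ℝ f x‖ₑ) setEᶜ i :=
    segUG_of f _ setEᶜ hU (fun i a b h => Pool.Agent.Helper83_CNED.H1.aclug K f setEᶜ hU hK i a b h)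
  have hC : 2 * C0 * C1 ≠ ∞ :=
    ENNReal.mul_ne_top (ENNReal.mul_ne_top (by norm_num) C0_ne_top) (vol_V_ne_top _)
  have hacl : Pool.Agent.Helper83_CNED.ACL univ (f : E3 → E3) := by
    apply Pool.Agent.Helper83_CNED.H72.aclof f (fun x => 2 * C0 * C1 * ‖fderiv ℝ f x‖ₑ)
      (hg.const_mul _)
    · intro r
      rw [lintegral_const_mul' _ _ hC]
      exact ENNReal.mul_lt_top (lt_top_iff_ne_top.2 hC) (hint r)
    · intro i
      exact lines f hg hS hint i
  refine ⟨f.continuous.continuousOn, f.injective.injOn, hacl, ?_⟩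
  filter_upwards [h0, hK.2.2.2] with x hx h _
  exact h hx

theorem not_cned : ¬ Pool.Agent.Helper83_CNED.CNED setE := by
  apply Pool.Agent.Helper83_CNED.H52.notCned Pool.Agent.Helper83_CNED.H52.modPos
  refine ⟨fun x => 2 * (Lim x - 1), by have := continuous_Lim; fun_prop, ?_, ?_, ?_⟩
  · intro x hx
    obtain ⟨k, m, h⟩ := Lim_off x hx
    refine ⟨2 * k - 2 * 2 ^ m, m, ?_⟩
    simp only [h]; push_cast; field_simp
  · rintro x ⟨h0, h1⟩
    have h2 := h1 1 (by decide)
    have h3 := h1 2 (by decide)
    have : Lim x = 1 := by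
      apply Lim_inner
      refine (norm_le_sum _).trans ?_
      have e0 : (x - halfs) 0 = 0 := by rw [PiLp.sub_apply, h0]; simp [halfs]
      have e1 : |(x - halfs) 1| ≤ 1 / 4 := by
        have : (x - halfs) 1 = x 1 - 1 / 2 := by rw [PiLp.sub_apply]; simp [halfs]
        rw [this, abs_le]; constructor <;> linarith [h2.1, h2.2]
      have e2 : |(x - halfs) 2| ≤ 1 / 4 := by
        have : (x - halfs) 2 = x 2 - 1 / 2 := by rw [PiLp.sub_apply]; simp [halfs]
        rw [this, abs_le]; constructor <;> linarith [h3.1, h3.2]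
      rw [e0, abs_zero]; linarith
    simp only [this]; norm_num
  · rintro x ⟨h0, h1⟩
    have : Lim x = 2 := by
      apply Lim_outer
      have e0 : (x - halfs) 0 = 2 := by rw [PiLp.sub_apply, h0]; simp [halfs]; norm_num
      have := abs_coord_le (x - halfs) 0
      rw [e0] at this
      simpa using this
    simp only [this]; norm_num

theorem main : Pool.Agent.Helper83_CNED.MainStmt :=
  ⟨setE, isCompact_setE, volume_setE, removable, not_cned⟩

end CNEDLink
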