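import Pool.Agent.Helper20_CNED.Lines

open MeasureTheory Set Metric Filter
open scoped ENNReal NNReal Topology

namespace CNEDLink

theorem tendsto_scale : Tendsto scale atTop (𝓝 0) := by
  have h : Tendsto (fun k : ℕ => ((4000 : ℝ)⁻¹) ^ k) atTop (𝓝 0) :=
    tendsto_pow_atTop_nhds_zero_of_lt_one (by norm_num) (by norm_num)
  have h2 := h.comp (tendsto_add_atTop_nat 1)
  refine h2.congr fun k => ?_
  simp [scale]

/-- every ball of radius `4 scale k` contains a ball of radius `scale k / 8` off `E` -/
theorem hole (k : ℕ) (x : E3) : ∃ y : E3, closedBall y (scale k / 8) ⊆ setEᶜ ∧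
    closedBall y (scale k / 8) ⊆ closedBall x (4 * scale k) := by
  have tp := scale_pos k
  set t := scale k with htdef
  set j : ℤ := ⌊x 0 / t⌋ with hj
  have h1 := Int.floor_le (x 0 / t)
  have h2 := (Int.lt_floor_add_one (x 0 / t)).le
  rw [le_div_iff₀ tp] at h1
  rw [div_le_iff₀ tp] at h2
  have hc := near_vertex tp 0 x j 0 ⟨by rw [hj]; linarith, by rw [hj]; linarith⟩
  rw [zero_smul, add_zero] at hc
  set c := latt t (idx t 0 x j) with hcdef
  have m0 : (0 : ℝ) ∈ Icc 0 t := ⟨le_rfl, tp.le⟩
  have nh := norm_halfs
  by_cases h : dz (ht k c) ≤ 7 / 25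
  · refine ⟨c, ?_, ?_⟩
    · intro y hy
      have hv : y - c ∈ closedBall (0 : E3) (t / 8) := by
        rw [mem_closedBall, dist_zero_right]
        rwa [mem_closedBall, dist_eq_norm] at hy
      have := type1_mem tp (type1_of k (idx t 0 x j) h) 0 (y - c) (by rw [norm_zero]; norm_num)
        isInt_zero hv 0 0 m0
      have e1 : c + t • (0 : E3) + (y - c) + (0 : ℝ) • e 0 = y := by
        rw [smul_zero, zero_smul]; abel
      rwa [e1] at this
    · intro y hy
      rw [mem_closedBall, dist_eq_norm] at hy ⊢
      have e1 : y - x = (y - c) - (x - c) := by abel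
      rw [e1]
      refine (norm_sub_le _ _).trans ?_
      linarith
  · push Not at h
    refine ⟨c + t • halfs, ?_, ?_⟩
    · intro y hy
      have hv : y - (c + t • halfs) ∈ closedBall (0 : E3) (t / 8) := by
        rw [mem_closedBall, dist_zero_right]
        rwa [mem_closedBall, dist_eq_norm] at hy
      have := type2_mem tp (type2_of k (idx t 0 x j) (by linarith)) 0 (y - (c + t • halfs))
        (by rw [add_zero]; linarith) isInt_zero hv 0 0 m0
      have e1 : c + t • (halfs + 0) + (y - (c + t • halfs)) + (0 : ℝ) • e 0 = y := by
        rw [add_zero, zero_smul]; abel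
      rwa [e1] at this
    · intro y hy
      rw [mem_closedBall, dist_eq_norm] at hy ⊢
      have e1 : y - x = (y - (c + t • halfs)) - (x - c) + t • halfs := by abel
      rw [e1]
      have h3 : ‖t • halfs‖ ≤ t * (7 / 8) := by
        rw [norm_smul, Real.norm_of_nonneg tp.le]; gcongr
      refine (norm_add_le _ _).trans ?_
      have := norm_sub_le (y - (c + t • halfs)) (x - c)
      linarith

theorem volume_setE : volume setE = 0 := by
  have hm : MeasurableSet setE := isClosed_setE.measurableSet
  have hd := Besicovitch.ae_tendsto_measure_inter_div (volume : Measure E3) setE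
  set κ : ℝ≥0∞ := volume (closedBall (0 : E3) (1 / 8)) / volume (closedBall (0 : E3) 4) with hκ
  have hκ0 : κ ≠ 0 := by
    rw [hκ]
    exact (ENNReal.div_pos (vol_V_ne_zero (by norm_num)) (vol_V_ne_top _)).ne'
  have hfalse : ∀ᵐ x ∂((volume : Measure E3).restrict setE), False := by
    filter_upwards [hd] with x hx
    have h4 : Tendsto (fun k => 4 * scale k) atTop (𝓝[>] 0) := by
      apply tendsto_nhdsWithin_of_tendsto_nhds_of_eventually_within
      · simpa using tendsto_scale.const_mul 4
      · exact Eventually.of_forall fun k => by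
          have := scale_pos k
          simp only [mem_Ioi]; positivity
    have hl := (hx.comp h4).add_const κ
    have hle : ∀ k, volume (setE ∩ closedBall x (4 * scale k)) /
        volume (closedBall x (4 * scale k)) + κ ≤ 1 := by
      intro k
      have ht := scale_pos k
      obtain ⟨y, hy1, hy2⟩ := hole k x
      have v4 : volume (closedBall x (4 * scale k)) =
          ENNReal.ofReal (scale k ^ 3) * volume (closedBall (0 : E3) 4) := by
        have := Measure.addHaar_closedBall_mul (volume : Measure E3) x ht.le
          (by norm_num : (0 : ℝ) ≤ 4)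
        rw [mul_comm (scale k) 4] at this
        simpa using this
      have v8 : volume (closedBall y (scale k / 8)) =
          ENNReal.ofReal (scale k ^ 3) * volume (closedBall (0 : E3) (1 / 8)) := by
        have := Measure.addHaar_closedBall_mul (volume : Measure E3) y ht.le
          (by norm_num : (0 : ℝ) ≤ 1 / 8)
        rw [show scale k * (1 / 8) = scale k / 8 by ring] at this
        simpa using this
      have s0 : ENNReal.ofReal (scale k ^ 3) ≠ 0 := (ENNReal.ofReal_pos.2 (by positivity)).ne'
      have s1 : ENNReal.ofReal (scale k ^ 3) ≠ ∞ := ENNReal.ofReal_ne_top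
      have hκ' : κ = volume (closedBall y (scale k / 8)) / volume (closedBall x (4 * scale k)) := by
        rw [v4, v8, ENNReal.mul_div_mul_left _ _ s0 s1]
      have w0 : volume (closedBall x (4 * scale k)) ≠ 0 :=
        (measure_closedBall_pos volume _ (by positivity)).ne'
      have w1 : volume (closedBall x (4 * scale k)) ≠ ∞ := measure_closedBall_lt_top.ne
      rw [hκ', ← ENNReal.add_div]
      rw [ENNReal.div_le_iff w0 w1, one_mul]
      rw [← measure_union]
      · apply measure_mono
        rintro z (hz | hz)
        · exact hz.2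
        · exact hy2 hz
      · rw [Set.disjoint_left]
        intro z hz hz'
        exact hy1 hz' hz.1
      · exact isClosed_closedBall.measurableSet
    have h1κ : (1 : ℝ≥0∞) + κ ≤ 1 := le_of_tendsto hl (Eventually.of_forall hle)
    have : (1 : ℝ≥0∞) < 1 + κ := ENNReal.lt_add_right ENNReal.one_ne_top hκ0
    exact absurd h1κ (not_le.2 this)
  rw [ae_iff] at hfalse
  have huniv : {a : E3 | ¬ False} = univ := by ext; simp
  rw [huniv, Measure.restrict_apply_univ] at hfalse
  exact hfalse

end CNEDLink
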