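import Pool.Agent.Helper20_CNED.Defs

open MeasureTheory Set Metric Filter
open scoped ENNReal NNReal Topology

namespace CNEDLink

theorem dz_le (x : ℝ) (m : ℤ) : dz x ≤ |x - m| := round_le x m

theorem dz_nonneg (x : ℝ) : 0 ≤ dz x := abs_nonneg _

theorem dz_eq_min (x : ℝ) : dz x = min (Int.fract x) (1 - Int.fract x) := abs_sub_round_eq_min x

theorem dz_int (m : ℤ) : dz (m : ℝ) = 0 := by simp [dz]

theorem dz_lip (x y : ℝ) : |dz x - dz y| ≤ |x - y| := by
  have h1 : dz x ≤ |x - y| + dz y := by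
    calc dz x ≤ |x - (round y : ℤ)| := dz_le x _
      _ = |(x - y) + (y - round y)| := by ring_nf
      _ ≤ |x - y| + |y - round y| := abs_add_le _ _
  have h2 : dz y ≤ |x - y| + dz x := by
    calc dz y ≤ |y - (round x : ℤ)| := dz_le y _
      _ = |(y - x) + (x - round x)| := by ring_nf
      _ ≤ |y - x| + |x - round x| := abs_add_le _ _
      _ = |x - y| + dz x := by rw [abs_sub_comm y x]; rfl
  rw [abs_le]; constructor <;> linarith

theorem med_lip (a b c a' b' c' d : ℝ) (ha : |a - a'| ≤ d) (hb : |b - b'| ≤ d)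
    (hc : |c - c'| ≤ d) : |med a b c - med a' b' c'| ≤ d := by
  unfold med
  refine (abs_max_sub_max_le_max _ _ _ _).trans (max_le ?_ ?_)
  · exact (abs_min_sub_min_le_max _ _ _ _).trans (max_le ha hb)
  · refine (abs_min_sub_min_le_max _ _ _ _).trans (max_le ?_ hc)
    exact (abs_max_sub_max_le_max _ _ _ _).trans (max_le ha hb)

theorem med_le (r : Fin 3 → ℝ) (w : ℝ) (i j : Fin 3) (hij : i ≠ j) (hi : r i ≤ w) (hj : r j ≤ w) :
    med (r 0) (r 1) (r 2) ≤ w := by
  unfold med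
  fin_cases i <;> fin_cases j <;> simp_all

theorem le_med (r : Fin 3 → ℝ) (w : ℝ) (i j : Fin 3) (hij : i ≠ j) (hi : w ≤ r i) (hj : w ≤ r j) :
    w ≤ med (r 0) (r 1) (r 2) := by
  unfold med
  fin_cases i <;> fin_cases j <;> simp_all

theorem abs_coord_le (x : E3) (i : Fin 3) : |x i| ≤ ‖x‖ := by
  have := EuclideanSpace.norm_eq x
  rw [← Real.norm_eq_abs]
  exact PiLp.norm_apply_le x i

theorem psi_mem (x : E3) : -1 ≤ psi x ∧ psi x ≤ 1 := by
  unfold psi
  constructor
  · exact le_max_left _ _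
  · exact max_le (by norm_num) (min_le_left _ _)

theorem psi_lip (x y : E3) : |psi x - psi y| ≤ 8 * ‖x - y‖ := by
  unfold psi
  have hm : |med (dz (x 0)) (dz (x 1)) (dz (x 2)) - med (dz (y 0)) (dz (y 1)) (dz (y 2))|
      ≤ ‖x - y‖ := by
    apply med_lip
    · exact (dz_lip _ _).trans (by simpa using abs_coord_le (x - y) 0)
    · exact (dz_lip _ _).trans (by simpa using abs_coord_le (x - y) 1)
    · exact (dz_lip _ _).trans (by simpa using abs_coord_le (x - y) 2)
  refine (abs_max_sub_max_le_max _ _ _ _).trans (max_le (by simp) ?_)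
  refine (abs_min_sub_min_le_max _ _ _ _).trans (max_le (by simp) ?_)
  have : (2 - 8 * med (dz (x 0)) (dz (x 1)) (dz (x 2))) -
      (2 - 8 * med (dz (y 0)) (dz (y 1)) (dz (y 2))) =
      -(8 * (med (dz (x 0)) (dz (x 1)) (dz (x 2)) - med (dz (y 0)) (dz (y 1)) (dz (y 2)))) := by
    ring
  rw [this, abs_neg, abs_mul, abs_of_pos (by norm_num : (0 : ℝ) < 8)]
  linarith

theorem psi_eq_one (x : E3) (i j : Fin 3) (hij : i ≠ j) (hi : dz (x i) ≤ 1 / 8)
    (hj : dz (x j) ≤ 1 / 8) : psi x = 1 := by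
  have h := med_le (fun i => dz (x i)) (1 / 8) i j hij hi hj
  unfold psi
  simp only at h
  rw [min_eq_left (by linarith), max_eq_right (by norm_num)]

theorem psi_eq_neg_one (x : E3) (i j : Fin 3) (hij : i ≠ j) (hi : 3 / 8 ≤ dz (x i))
    (hj : 3 / 8 ≤ dz (x j)) : psi x = -1 := by
  have h := le_med (fun i => dz (x i)) (3 / 8) i j hij hi hj
  unfold psi
  simp only at h
  apply max_eq_left
  exact (min_le_right _ _).trans (by linarith)

/-! ### clip and stair -/

theorem clip_lip (x y : ℝ) : |clip x - clip y| ≤ |x - y| := by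
  unfold clip
  refine (abs_max_sub_max_le_max _ _ _ _).trans (max_le (by simp) ?_)
  exact (abs_min_sub_min_le_max _ _ _ _).trans (max_le (by simp) le_rfl)

theorem clip_nonneg (x : ℝ) : 0 ≤ clip x := le_max_left _ _

theorem clip_le_one (x : ℝ) : clip x ≤ 1 := max_le (by norm_num) (min_le_left _ _)

theorem clip_eq_zero {x : ℝ} (h : x ≤ 0) : clip x = 0 := by
  unfold clip
  exact max_eq_left ((min_le_right _ _).trans h)

theorem clip_eq_one {x : ℝ} (h : 1 ≤ x) : clip x = 1 := by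
  unfold clip
  rw [min_eq_left h, max_eq_right (by norm_num)]

/-- the staircase on one period -/
noncomputable def gg (s p : ℝ) : ℝ := clip (8 * s - 3 / 2 - p) + clip (8 * s - 11 / 2 + p)

theorem stair_eq (u p : ℝ) : stair u p = 2 * (⌊u⌋ : ℝ) + gg (Int.fract u) p := by
  unfold stair gg; ring

theorem gg_lip (s s' p p' : ℝ) : |gg s p - gg s' p'| ≤ 16 * |s - s'| + 2 * |p - p'| := by
  unfold gg
  have h1 := clip_lip (8 * s - 3 / 2 - p) (8 * s' - 3 / 2 - p')
  have h2 := clip_lip (8 * s - 11 / 2 + p) (8 * s' - 11 / 2 + p')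
  have h3 : |8 * s - 3 / 2 - p - (8 * s' - 3 / 2 - p')| ≤ 8 * |s - s'| + |p - p'| := by
    have : 8 * s - 3 / 2 - p - (8 * s' - 3 / 2 - p') = 8 * (s - s') - (p - p') := by ring
    rw [this]
    refine (abs_sub _ _).trans ?_
    rw [abs_mul, abs_of_pos (by norm_num : (0 : ℝ) < 8)]
  have h4 : |8 * s - 11 / 2 + p - (8 * s' - 11 / 2 + p')| ≤ 8 * |s - s'| + |p - p'| := by
    have : 8 * s - 11 / 2 + p - (8 * s' - 11 / 2 + p') = 8 * (s - s') + (p - p') := by ring
    rw [this]
    refine (abs_add_le _ _).trans ?_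
    rw [abs_mul, abs_of_pos (by norm_num : (0 : ℝ) < 8)]
  have h5 : clip (8 * s - 3 / 2 - p) + clip (8 * s - 11 / 2 + p) -
      (clip (8 * s' - 3 / 2 - p') + clip (8 * s' - 11 / 2 + p')) =
      (clip (8 * s - 3 / 2 - p) - clip (8 * s' - 3 / 2 - p')) +
      (clip (8 * s - 11 / 2 + p) - clip (8 * s' - 11 / 2 + p')) := by ring
  rw [h5]
  refine (abs_add_le _ _).trans ?_
  linarith

theorem gg_zero {p : ℝ} (h1 : -1 ≤ p) (h2 : p ≤ 1) : gg 0 p = 0 := by
  unfold gg
  rw [clip_eq_zero (by linarith), clip_eq_zero (by linarith)]; norm_num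

theorem gg_one {p : ℝ} (h1 : -1 ≤ p) (h2 : p ≤ 1) : gg 1 p = 2 := by
  unfold gg
  rw [clip_eq_one (by linarith), clip_eq_one (by linarith)]; norm_num

theorem stair_int (m : ℤ) {p : ℝ} (h1 : -1 ≤ p) (h2 : p ≤ 1) : stair (m : ℝ) p = 2 * m := by
  rw [stair_eq]
  simp [gg_zero h1 h2]

theorem stair_lip_u {p : ℝ} (h1 : -1 ≤ p) (h2 : p ≤ 1) (u u' : ℝ) :
    |stair u p - stair u' p| ≤ 16 * |u - u'| := by
  wlog huu : u' ≤ u generalizing u u'
  · rw [abs_sub_comm, abs_sub_comm u u']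
    exact this u' u (le_of_not_ge huu)
  rw [stair_eq, stair_eq, abs_of_nonneg (sub_nonneg.2 huu)]
  have hf : (⌊u'⌋ : ℝ) ≤ ⌊u⌋ := by exact_mod_cast Int.floor_le_floor huu
  have e1 : Int.fract u = u - ⌊u⌋ := rfl
  have e2 : Int.fract u' = u' - ⌊u'⌋ := rfl
  by_cases hfl : ⌊u⌋ = ⌊u'⌋
  · have h := gg_lip (Int.fract u) (Int.fract u') p p
    rw [hfl]
    have h3 : 2 * (⌊u'⌋ : ℝ) + gg (Int.fract u) p - (2 * (⌊u'⌋ : ℝ) + gg (Int.fract u') p) =
      gg (Int.fract u) p - gg (Int.fract u') p := by ring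
    rw [h3]
    refine h.trans ?_
    rw [sub_self, abs_zero, mul_zero, add_zero, e1, e2, hfl]
    have : u - (⌊u'⌋ : ℝ) - (u' - ⌊u'⌋) = u - u' := by ring
    rw [this, abs_of_nonneg (sub_nonneg.2 huu)]
  · have hlt : ⌊u'⌋ + 1 ≤ ⌊u⌋ := by
      have : ⌊u'⌋ ≤ ⌊u⌋ := Int.floor_le_floor huu
      omega
    have hlt' : (⌊u'⌋ : ℝ) + 1 ≤ ⌊u⌋ := by exact_mod_cast hlt
    have h3 := gg_lip (Int.fract u) 0 p p
    have h4 := gg_lip 1 (Int.fract u') p p
    rw [gg_zero h1 h2] at h3
    rw [gg_one h1 h2] at h4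
    rw [sub_self, abs_zero, mul_zero, add_zero, sub_zero, sub_zero,
      abs_of_nonneg (Int.fract_nonneg u)] at h3
    rw [sub_self, abs_zero, mul_zero, add_zero,
      abs_of_nonneg (by linarith [Int.fract_lt_one u'] : (0 : ℝ) ≤ 1 - Int.fract u')] at h4
    have h5 : 2 * (⌊u⌋ : ℝ) + gg (Int.fract u) p - (2 * (⌊u'⌋ : ℝ) + gg (Int.fract u') p) =
      gg (Int.fract u) p + (2 - gg (Int.fract u') p) + 2 * ((⌊u⌋ : ℝ) - (⌊u'⌋ + 1)) := by ring
    rw [h5]
    refine (abs_add_le _ _).trans ?_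
    refine (add_le_add_left (abs_add_le _ _) _).trans ?_
    rw [abs_of_nonneg (by linarith : (0 : ℝ) ≤ 2 * ((⌊u⌋ : ℝ) - (⌊u'⌋ + 1)))]
    rw [e1] at h3
    rw [e2] at h4
    rw [e1, e2]
    linarith

theorem stair_lip {p p' : ℝ} (h1 : -1 ≤ p) (h2 : p ≤ 1) (u u' : ℝ) :
    |stair u p - stair u' p'| ≤ 16 * |u - u'| + 2 * |p - p'| := by
  have h3 := stair_lip_u h1 h2 u u'
  have h4 : |stair u' p - stair u' p'| ≤ 2 * |p - p'| := by
    rw [stair_eq, stair_eq]
    have h5 := gg_lip (Int.fract u') (Int.fract u') p p'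
    rw [sub_self, abs_zero, mul_zero, zero_add] at h5
    have : 2 * (⌊u'⌋ : ℝ) + gg (Int.fract u') p - (2 * (⌊u'⌋ : ℝ) + gg (Int.fract u') p') =
      gg (Int.fract u') p - gg (Int.fract u') p' := by ring
    rw [this]; exact h5
  have : stair u p - stair u' p' = (stair u p - stair u' p) + (stair u' p - stair u' p') := by ring
  rw [this]
  exact (abs_add_le _ _).trans (add_le_add h3 h4)

theorem stair_one {u : ℝ} (h : dz u ≤ 5 / 16) : ∃ m : ℤ, stair u 1 = m := by
  rw [dz_eq_min, min_le_iff] at h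
  rw [stair_eq]
  unfold gg
  rcases h with h | h
  · refine ⟨2 * ⌊u⌋, ?_⟩
    rw [clip_eq_zero (by linarith), clip_eq_zero (by linarith)]; push_cast; ring
  · refine ⟨2 * ⌊u⌋ + 2, ?_⟩
    rw [clip_eq_one (by linarith), clip_eq_one (by linarith)]; push_cast; ring

theorem stair_neg_one {u : ℝ} (h : 3 / 16 ≤ dz u) : ∃ m : ℤ, stair u (-1) = m := by
  rw [dz_eq_min, le_min_iff] at h
  rw [stair_eq]
  unfold gg
  refine ⟨2 * ⌊u⌋ + 1, ?_⟩
  rw [clip_eq_one (by linarith), clip_eq_zero (by linarith)]; push_cast; ring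

theorem stair_gap {u p : ℝ} (h1 : -1 ≤ p) (h2 : p ≤ 1) (h : dz u < 1 / 16) :
    ∃ m : ℤ, stair u p = m := by
  rw [dz_eq_min, min_lt_iff] at h
  rw [stair_eq]
  unfold gg
  rcases h with h | h
  · refine ⟨2 * ⌊u⌋, ?_⟩
    rw [clip_eq_zero (by linarith), clip_eq_zero (by linarith)]; push_cast; ring
  · refine ⟨2 * ⌊u⌋ + 2, ?_⟩
    rw [clip_eq_one (by linarith), clip_eq_one (by linarith)]; push_cast; ring

theorem stair_sub (u p : ℝ) : |stair u p - 2 * u| ≤ 2 := by
  rw [stair_eq]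
  have e1 : u = ⌊u⌋ + Int.fract u := (Int.floor_add_fract u).symm
  have h0 := Int.fract_nonneg u
  have h1 := Int.fract_lt_one u
  unfold gg
  have a1 := clip_nonneg (8 * Int.fract u - 3 / 2 - p)
  have a2 := clip_nonneg (8 * Int.fract u - 11 / 2 + p)
  have a3 := clip_le_one (8 * Int.fract u - 3 / 2 - p)
  have a4 := clip_le_one (8 * Int.fract u - 11 / 2 + p)
  rw [abs_le]
  constructor <;> linarith

/-! ### the height functions -/

theorem ht_zero (x : E3) : ht 0 x = min 2 (max 1 ‖x - halfs‖) := rfl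

theorem ht_succ (k : ℕ) (x : E3) :
    ht (k + 1) x = stair (ht k x) (psi ((4000 : ℝ) ^ (k + 1) • x)) := rfl

theorem ht_lip (k : ℕ) (x y : E3) : |ht k x - ht k y| ≤ 17 * 4000 ^ k * ‖x - y‖ := by
  induction k with
  | zero =>
    rw [ht_zero, ht_zero]
    have h1 : |min 2 (max 1 ‖x - halfs‖) - min 2 (max 1 ‖y - halfs‖)| ≤ ‖x - y‖ := by
      refine (abs_min_sub_min_le_max _ _ _ _).trans (max_le (by simp) ?_)
      refine (abs_max_sub_max_le_max _ _ _ _).trans (max_le (by simp) ?_)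
      refine (abs_norm_sub_norm_le _ _).trans (le_of_eq ?_)
      congr 1; abel
    have h0 := norm_nonneg (x - y)
    simp only [pow_zero, mul_one]
    linarith
  | succ k ih =>
    rw [ht_succ, ht_succ]
    have h1 := psi_mem ((4000 : ℝ) ^ (k + 1) • x)
    have h2 := stair_lip (p' := psi ((4000 : ℝ) ^ (k + 1) • y)) h1.1 h1.2 (ht k x) (ht k y)
    have h3 := psi_lip ((4000 : ℝ) ^ (k + 1) • x) ((4000 : ℝ) ^ (k + 1) • y)
    rw [← smul_sub, norm_smul, Real.norm_of_nonneg (by positivity)] at h3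
    have h0 := norm_nonneg (x - y)
    have h4 : (0 : ℝ) < 4000 ^ k := by positivity
    have h5 : (4000 : ℝ) ^ (k + 1) = 4000 * 4000 ^ k := by ring
    rw [h5] at h3 ⊢
    have h6 : 0 ≤ 4000 ^ k * ‖x - y‖ := by positivity
    rw [h5] at h2
    nlinarith

theorem continuous_ht (k : ℕ) : Continuous (ht k) := by
  have : LipschitzWith (Real.toNNReal (17 * 4000 ^ k)) (ht k) := by
    apply LipschitzWith.of_dist_le_mul
    intro x y
    rw [Real.dist_eq, dist_eq_norm, Real.coe_toNNReal _ (by positivity)]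
    exact ht_lip k x y
  exact this.continuous

theorem continuous_dz : Continuous dz := by
  have : LipschitzWith 1 dz := by
    apply LipschitzWith.of_dist_le_mul
    intro x y
    rw [Real.dist_eq, Real.dist_eq]
    simpa using dz_lip x y
  exact this.continuous

theorem isClosed_setE : IsClosed setE := by
  have : setE = ⋂ k : ℕ, {x : E3 | 1 / 16 ≤ dz (ht k x)} := by
    ext x; simp [setE]
  rw [this]
  exact isClosed_iInter fun k => isClosed_le continuous_const (continuous_dz.comp (continuous_ht k))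

theorem notMem_setE_of_int (k : ℕ) (x : E3) (m : ℤ) (h : ht k x = m) : x ∈ setEᶜ := by
  intro hx
  have := hx k
  rw [h, dz_int] at this
  norm_num at this

theorem scale_pos (k : ℕ) : 0 < scale k := by unfold scale; positivity

theorem scale_mul (k : ℕ) : (4000 : ℝ) ^ (k + 1) * scale k = 1 := by
  unfold scale
  exact mul_inv_cancel₀ (by positivity)

theorem pow_mul_scale (k : ℕ) : (4000 : ℝ) ^ k * scale k = 1 / 4000 := by
  have h := scale_mul k
  rw [pow_succ] at h
  linarith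

theorem latt_apply (t : ℝ) (z : Fin 3 → ℤ) (i : Fin 3) : latt t z i = t * z i := rfl

theorem type1_of (k : ℕ) (z : Fin 3 → ℤ) (h : dz (ht k (latt (scale k) z)) ≤ 7 / 25) :
    Type1 setEᶜ (scale k) (latt (scale k) z) := by
  intro x hx i j hij hi hj
  have ht0 := scale_pos k
  have key : ∀ l : Fin 3, near1 (scale k) (latt (scale k) z) x l →
      dz (((4000 : ℝ) ^ (k + 1) • x) l) ≤ 1 / 8 := by
    intro l hl
    obtain ⟨m, hm⟩ := hl
    rw [latt_apply] at hm
    refine (dz_le _ (z l + m)).trans ?_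
    have e1 : ((4000 : ℝ) ^ (k + 1) • x) l - ((z l + m : ℤ) : ℝ) =
        (4000 : ℝ) ^ (k + 1) * (x l - scale k * z l - scale k * m) := by
      rw [PiLp.smul_apply, smul_eq_mul]
      push_cast
      have := scale_mul k
      linear_combination ((z l : ℝ) + m) * this
    rw [e1, abs_mul, abs_of_pos (by positivity)]
    have h2 : (4000 : ℝ) ^ (k + 1) * |x l - scale k * z l - scale k * m| ≤
        (4000 : ℝ) ^ (k + 1) * (scale k / 8) := by gcongr
    have := scale_mul k
    linarith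
  have hp : psi ((4000 : ℝ) ^ (k + 1) • x) = 1 := psi_eq_one _ i j hij (key i hi) (key j hj)
  have hd : dz (ht k x) ≤ 5 / 16 := by
    have h1 := dz_lip (ht k x) (ht k (latt (scale k) z))
    have h2 := ht_lip k x (latt (scale k) z)
    rw [mem_closedBall, dist_eq_norm] at hx
    have h3 : 17 * 4000 ^ k * ‖x - latt (scale k) z‖ ≤ 17 * 4000 ^ k * (4 * scale k) := by gcongr
    have h4 := pow_mul_scale k
    have h5 := (abs_le.1 (h1.trans (h2.trans h3))).2
    linarith
  obtain ⟨m, hm⟩ := stair_one hd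
  apply notMem_setE_of_int (k + 1) x m
  rw [ht_succ, hp, hm]

theorem dz_half {X : ℝ} (M : ℤ) (h : |X - (M + 1 / 2)| ≤ 1 / 8) : 3 / 8 ≤ dz X := by
  unfold dz
  set n := round X
  have h1 : |(M : ℝ) + 1 / 2 - n| ≥ 1 / 2 := by
    rcases le_or_gt n M with h2 | h2
    · have : (n : ℝ) ≤ M := by exact_mod_cast h2
      rw [abs_of_nonneg (by linarith)]; linarith
    · have : (M : ℝ) + 1 ≤ n := by exact_mod_cast h2
      rw [abs_of_nonpos (by linarith)]; linarith
  have h2 : |(M : ℝ) + 1 / 2 - n| ≤ |X - (M + 1 / 2)| + |X - n| := by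
    have : (M : ℝ) + 1 / 2 - n = -(X - (M + 1 / 2)) + (X - n) := by ring
    rw [this]
    refine (abs_add_le _ _).trans ?_
    rw [abs_neg]
  linarith

theorem type2_of (k : ℕ) (z : Fin 3 → ℤ) (h : 11 / 50 ≤ dz (ht k (latt (scale k) z))) :
    Type2 setEᶜ (scale k) (latt (scale k) z) := by
  intro x hx i j hij hi hj
  have ht0 := scale_pos k
  have key : ∀ l : Fin 3, near2 (scale k) (latt (scale k) z) x l →
      3 / 8 ≤ dz (((4000 : ℝ) ^ (k + 1) • x) l) := by
    intro l hl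
    obtain ⟨m, hm⟩ := hl
    rw [latt_apply] at hm
    apply dz_half (z l + m)
    have e1 : ((4000 : ℝ) ^ (k + 1) • x) l - (((z l + m : ℤ) : ℝ) + 1 / 2) =
        (4000 : ℝ) ^ (k + 1) * (x l - scale k * z l - scale k * (m + 1 / 2)) := by
      rw [PiLp.smul_apply, smul_eq_mul]
      push_cast
      have := scale_mul k
      linear_combination ((z l : ℝ) + m + 1 / 2) * this
    rw [e1, abs_mul, abs_of_pos (by positivity)]
    have h2 : (4000 : ℝ) ^ (k + 1) * |x l - scale k * z l - scale k * (m + 1 / 2)| ≤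
        (4000 : ℝ) ^ (k + 1) * (scale k / 8) := by gcongr
    have := scale_mul k
    linarith
  have hp : psi ((4000 : ℝ) ^ (k + 1) • x) = -1 :=
    psi_eq_neg_one _ i j hij (key i hi) (key j hj)
  have hd : 3 / 16 ≤ dz (ht k x) := by
    have h1 := dz_lip (ht k x) (ht k (latt (scale k) z))
    have h2 := ht_lip k x (latt (scale k) z)
    rw [mem_closedBall, dist_eq_norm] at hx
    have h3 : 17 * 4000 ^ k * ‖x - latt (scale k) z‖ ≤ 17 * 4000 ^ k * (4 * scale k) := by gcongr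
    have h4 := pow_mul_scale k
    have h5 := (abs_le.1 (h1.trans (h2.trans h3))).1
    linarith
  obtain ⟨m, hm⟩ := stair_neg_one hd
  apply notMem_setE_of_int (k + 1) x m
  rw [ht_succ, hp, hm]

theorem latt_add_single (t : ℝ) (z : Fin 3 → ℤ) (i : Fin 3) :
    latt t (z + Pi.single i 1) = latt t z + t • e i := by
  ext j
  rw [PiLp.add_apply, PiLp.smul_apply, latt_apply, latt_apply]
  by_cases hij : j = i
  · subst hij; simp; ring
  · simp [hij]

theorem dz_ht_adj (k : ℕ) (z : Fin 3 → ℤ) (i : Fin 3) :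
    |dz (ht k (latt (scale k) (z + Pi.single i 1))) - dz (ht k (latt (scale k) z))| ≤ 1 / 100 := by
  have h1 := dz_lip (ht k (latt (scale k) (z + Pi.single i 1))) (ht k (latt (scale k) z))
  have h2 := ht_lip k (latt (scale k) (z + Pi.single i 1)) (latt (scale k) z)
  have h3 : ‖latt (scale k) (z + Pi.single i 1) - latt (scale k) z‖ = scale k := by
    rw [latt_add_single, add_sub_cancel_left, norm_smul, Real.norm_of_nonneg (scale_pos k).le]
    simp
  rw [h3] at h2
  have h4 := pow_mul_scale k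
  have h5 := h1.trans h2
  linarith

end CNEDLink
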