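import Mathlib

/-!
# Quasiconformal maps, modulus, CNED sets and QCH-removable sets

The definitions used in the statement of the hand-in `MP_f60983_an.RemovableNotCned`.
-/

open MeasureTheory Set

open scoped ENNReal

noncomputable section

namespace Pool.Agent.QcDefs

/-- Euclidean `n`-space -/
abbrev Eu (n : ℕ) : Type := EuclideanSpace ℝ (Fin n)

/-- the point with `i`-th coordinate `t` on the line through `p` parallel to the `i`-th axis -/
def line {n : ℕ} (p : Eu n) (i : Fin n) (t : ℝ) : Eu n :=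
  p + (t - p i) • EuclideanSpace.single i (1 : ℝ)

/-- `f` is ACL in `U`: for every closed interval `Q = ∏ [a_j, b_j]` contained in `U` and every `i`,
`f` is absolutely continuous on almost every line segment of `Q` that is parallel to the `i`-th
axis. -/
def ACL {n : ℕ} (U : Set (Eu n)) (f : Eu n → Eu n) : Prop :=
  ∀ a b : Fin n → ℝ, {x : Eu n | ∀ j, x j ∈ Icc (a j) (b j)} ⊆ U → ∀ i : Fin n,
    ∀ᵐ p : Eu n, (∀ j, p j ∈ Icc (a j) (b j)) →
      AbsolutelyContinuousOnInterval (fun t => f (line p i t)) (a i) (b i)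

/-- The analytic definition of a quasiconformal map `f` of an open set `U` (with constant `K`):
`f` is continuous and injective in `U`, ACL, differentiable almost everywhere, and
`|f'(x)|^n ≤ K |J(x, f)|` almost everywhere in `U`. -/
def IsQCOn {n : ℕ} (K : ℝ) (U : Set (Eu n)) (f : Eu n → Eu n) : Prop :=
  ContinuousOn f U ∧ InjOn f U ∧ ACL U f ∧
    ∀ᵐ x : Eu n, x ∈ U → DifferentiableAt ℝ f x ∧
      ‖fderiv ℝ f x‖ ^ n ≤ K * |(fderiv ℝ f x).det|

/-- QCH-removable sets: every homeomorphism of the space onto itself that is quasiconformal in the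
complement of `E` is quasiconformal in the whole space. -/
def QCHRemovable {n : ℕ} (E : Set (Eu n)) : Prop :=
  ∀ f : Eu n ≃ₜ Eu n, (∃ K : ℝ, IsQCOn K Eᶜ f) → ∃ K : ℝ, IsQCOn K univ f

/-- A curve is a continuous map `[0, 1] → ℝ^n`. This is its extension to the real line (constant
outside of `[0, 1]`). -/
def ext {n : ℕ} (γ : C(unitInterval, Eu n)) : ℝ → Eu n :=
  IccExtend zero_le_one γ

/-- the length of a curve -/
def len {n : ℕ} (γ : C(unitInterval, Eu n)) : ℝ≥0∞ := eVariationOn (ext γ) (Icc 0 1)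

/-- the integral of `ρ` along a rectifiable curve with respect to arc length -/
def lineIntegral {n : ℕ} (ρ : Eu n → ℝ≥0∞) (γ : C(unitInterval, Eu n)) : ℝ≥0∞ :=
  ∫⁻ s in Icc 0 (len γ).toReal, ρ (naturalParameterization (ext γ) (Icc 0 1) 0 s)

/-- `ρ` is admissible for the curve family `Γ`: it is a Borel function with `∫_γ ρ ds ≥ 1` for
every rectifiable `γ` in `Γ` -/
def Admissible {n : ℕ} (Γ : Set (C(unitInterval, Eu n))) (ρ : Eu n → ℝ≥0∞) : Prop :=
  Measurable ρ ∧ ∀ γ ∈ Γ, len γ ≠ ⊤ → 1 ≤ lineIntegral ρ γ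

/-- the conformal `n`-modulus -/
def modulus {n : ℕ} (Γ : Set (C(unitInterval, Eu n))) : ℝ≥0∞ :=
  ⨅ (ρ : Eu n → ℝ≥0∞) (_ : Admissible Γ ρ), ∫⁻ x, ρ x ^ n

/-- the curves joining `F₁` and `F₂` -/
def joining {n : ℕ} (F₁ F₂ : Set (Eu n)) : Set (C(unitInterval, Eu n)) :=
  {γ | γ 0 ∈ F₁ ∧ γ 1 ∈ F₂}

/-- the curves whose trace meets `E` in a countable set -/
def sigmaFam {n : ℕ} (E : Set (Eu n)) : Set (C(unitInterval, Eu n)) :=
  {γ | (range γ ∩ E).Countable}

/-- CNED sets (countably negligible for extremal distances): for all disjoint non-empty continua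
`F₁`, `F₂` the curves joining them have the same modulus as those of them that meet `E` in a
countable set. -/
def CNED {n : ℕ} (E : Set (Eu n)) : Prop :=
  ∀ F₁ F₂ : Set (Eu n), IsCompact F₁ → IsConnected F₁ → IsCompact F₂ → IsConnected F₂ →
    Disjoint F₁ F₂ → modulus (joining F₁ F₂) = modulus (joining F₁ F₂ ∩ sigmaFam E)

end Pool.Agent.QcDefs
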